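import Mathlib

/-!
# The group of compactly supported symplectomorphisms of `ℝ²ⁿ`
-/

set_option autoImplicit false

open scoped ContDiff Topology

namespace Pool.Agent.W71.EC

/-- The space `ℝ²ⁿ` with coordinates `(x, y)`, `x, y ∈ ℝⁿ`. -/
abbrev R2 (n : ℕ) : Type := (Fin n → ℝ) × (Fin n → ℝ)

/-- The standard symplectic form `ω_st = ∑ dx_i ∧ dy_i` on `ℝ²ⁿ`. -/
def omega {n : ℕ} (u v : R2 n) : ℝ := ∑ i, (u.1 i * v.2 i - u.2 i * v.1 i)

/-- `Symp_ct(ℝ²ⁿ, ω_st)`: the diffeomorphisms `φ` of `ℝ²ⁿ` with `φ^* ω_st = ω_st` which are the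
identity outside some compact set. -/
structure SympCt (n : ℕ) where
  /-- the underlying bijection -/
  toEquiv : R2 n ≃ R2 n
  smooth : ContDiff ℝ ∞ toEquiv
  smooth_symm : ContDiff ℝ ∞ toEquiv.symm
  symplectic : ∀ p u v : R2 n,
    omega (fderiv ℝ toEquiv p u) (fderiv ℝ toEquiv p v) = omega u v
  compact_support : ∃ K : Set (R2 n), IsCompact K ∧ ∀ p, p ∉ K → toEquiv p = p

/-- The elements of `Symp_ct(ℝ²ⁿ, ω_st)` supported in `K`. -/
def supportedIn {n : ℕ} (K : Set (R2 n)) : Set (SympCt n) :=
  {φ | ∀ p, p ∉ K → φ.toEquiv p = p}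

/-- The `k`-th derivative of a smooth map, as a continuous map to the space of multilinear maps. -/
noncomputable def deriv {n : ℕ} (k : ℕ) (φ : SympCt n) :
    C(R2 n, (R2 n) [×k]→L[ℝ] (R2 n)) :=
  ⟨iteratedFDeriv ℝ k φ.toEquiv, φ.smooth.continuous_iteratedFDeriv (by exact_mod_cast le_top)⟩

/-- The `C^∞` topology on the set of elements supported in `K`: the coarsest topology for which all
maps `φ ↦ D^k φ`, `k ≥ 0`, are continuous for the topology of uniform convergence on compact sets
(the compact-open topology). -/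
noncomputable def smoothTopology {n : ℕ} (K : Set (R2 n)) :
    TopologicalSpace (supportedIn K) :=
  ⨅ k : ℕ, TopologicalSpace.induced (fun φ : supportedIn K => deriv k φ.1)
    ContinuousMap.compactOpen

/-- The topology of `Symp_ct(ℝ²ⁿ, ω_st)`: the direct limit of the `C^∞` topologies of the subsets of
the elements supported in `K`, over all compact sets `K`. -/
noncomputable instance {n : ℕ} : TopologicalSpace (SympCt n) :=
  ⨆ K : TopologicalSpace.Compacts (R2 n),
    TopologicalSpace.coinduced (Subtype.val : supportedIn (K : Set (R2 n)) → SympCt n)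
      (smoothTopology (K : Set (R2 n)))

end Pool.Agent.W71.EC
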