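import Mathlib

set_option autoImplicit false

open scoped ContDiff Topology NNReal

namespace Pool.Agent.W71.EC

section general

variable {E : Type*} [NormedAddCommGroup E] [NormedSpace ℝ E] [FiniteDimensional ℝ E]

/-- A smooth bijection with injective differentials has a smooth inverse. -/
theorem contDiff_symm_of (e : E ≃ E) (he : ContDiff ℝ ∞ e)
    (hinj : ∀ x v, fderiv ℝ e x v = 0 → v = 0) : ContDiff ℝ ∞ e.symm := by
  have : CompleteSpace E := FiniteDimensional.complete ℝ E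
  have key : ∀ x, ∃ e' : E ≃L[ℝ] E, HasStrictFDerivAt e (e' : E →L[ℝ] E) x := by
    intro x
    have h1 : Function.Injective (fderiv ℝ e x : E →ₗ[ℝ] E) := by
      rw [← LinearMap.ker_eq_bot, LinearMap.ker_eq_bot']
      intro v hv
      exact hinj x v hv
    let l : E ≃ₗ[ℝ] E := LinearEquiv.ofInjectiveEndo _ h1
    refine ⟨l.toContinuousLinearEquiv, ?_⟩
    have h2 : ((l.toContinuousLinearEquiv : E ≃L[ℝ] E) : E →L[ℝ] E) = fderiv ℝ e x := by
      ext v
      rfl
    rw [h2]
    exact (he.contDiffAt (x := x)).hasStrictFDerivAt (by norm_num)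
  have hopen : IsOpenMap e := by
    rw [isOpenMap_iff_nhds_le]
    intro x
    obtain ⟨e', h⟩ := key x
    exact h.map_nhds_eq_of_equiv.ge
  let H : E ≃ₜ E := e.toHomeomorphOfContinuousOpen he.continuous hopen
  have : ∀ x, ContDiffAt ℝ ∞ e.symm x := by
    intro x
    obtain ⟨e', h⟩ := key (e.symm x)
    have h3 := H.toOpenPartialHomeomorph.contDiffAt_symm (n := ∞) (𝕜 := ℝ) (a := x)
      (f₀' := e') (by trivial) (by exact h.hasFDerivAt) (by exact he.contDiffAt)
    exact h3
  exact contDiff_iff_contDiffAt.2 this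

/-- A contraction perturbation of the identity is bijective. -/
theorem bijective_sub {c : ℝ≥0} (hc : c < 1) {X : E → E} (hX : LipschitzWith c X) :
    Function.Bijective (fun q => q - X q) := by
  have : CompleteSpace E := FiniteDimensional.complete ℝ E
  constructor
  · intro q q' h
    have h1 : q - q' = X q - X q' := by
      have h' : q - X q = q' - X q' := h
      have h2 : q - X q + (X q - q') = q' - X q' + (X q - q') := by rw [h']
      have h3 : q - q' = q - X q + (X q - q') := by abel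
      rw [h3, h2]
      abel
    have h2 : ‖q - q'‖ ≤ c * ‖q - q'‖ := by
      conv_lhs => rw [h1]
      exact hX.norm_sub_le q q'
    have h3 : (c : ℝ) < 1 := by exact_mod_cast hc
    have h4 : ‖q - q'‖ = 0 := by
      by_contra hne
      have : 0 < ‖q - q'‖ := lt_of_le_of_ne (norm_nonneg _) (Ne.symm hne)
      nlinarith
    exact sub_eq_zero.1 (norm_eq_zero.1 h4)
  · intro p
    have hcon : ContractingWith c (fun q => p + X q) := by
      refine ⟨hc, ?_⟩
      intro a b
      have := hX a b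
      rwa [edist_add_left]
    refine ⟨hcon.fixedPoint, ?_⟩
    have h := hcon.fixedPoint_isFixedPt
    have h' : p + X (hcon.fixedPoint) = hcon.fixedPoint := h
    show hcon.fixedPoint - X hcon.fixedPoint = p
    conv_lhs => rw [← h']
    rw [show p + X (ContractingWith.fixedPoint (fun q => p + X q) hcon)
      = ContractingWith.fixedPoint (fun q => p + X q) hcon from h']
    conv_lhs =>
      arg 1
      rw [← h']
    abel

/-- the parameter -/
noncomputable def sp (t : ℝ) : ℝ := Real.smoothTransition t / 2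

theorem sp_smooth : ContDiff ℝ ∞ sp := Real.smoothTransition.contDiff.div_const 2

theorem sp_nonneg (t : ℝ) : 0 ≤ sp t := by
  have := Real.smoothTransition.nonneg t
  unfold sp
  linarith

theorem sp_le (t : ℝ) : sp t ≤ 1 / 2 := by
  have := Real.smoothTransition.le_one t
  unfold sp
  linarith

theorem sp_zero : sp 0 = 0 := by
  unfold sp
  rw [Real.smoothTransition.zero]
  norm_num

theorem sp_one : sp 1 = 1 / 2 := by
  unfold sp
  rw [Real.smoothTransition.one]

theorem lip_smul {X : E → E} (hX : LipschitzWith 1 X) {r : ℝ} (hr : |r| ≤ 1 / 2) :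
    LipschitzWith (1 / 2 : ℝ≥0) (fun q => r • X q) := by
  refine LipschitzWith.of_dist_le_mul fun a b => ?_
  have h1 := hX.dist_le_mul a b
  rw [dist_eq_norm, ← smul_sub, norm_smul, ← dist_eq_norm, Real.norm_eq_abs]
  have h2 : ((1 / 2 : ℝ≥0) : ℝ) = 1 / 2 := by norm_num
  rw [h2]
  have h3 : (0 : ℝ) ≤ dist (X a) (X b) := dist_nonneg
  have h4 : ((1 : ℝ≥0) : ℝ) = 1 := by norm_num
  rw [h4, one_mul] at h1
  nlinarith [abs_nonneg r]

/-- `q ↦ q - r X(q)` as a bijection -/
noncomputable def pert {X : E → E} (hX : LipschitzWith 1 X) (r : ℝ) (hr : |r| ≤ 1 / 2) : E ≃ E :=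
  Equiv.ofBijective (fun q => q - r • X q)
    (bijective_sub (c := 1 / 2) (by norm_num) (lip_smul hX hr))

theorem pert_apply {X : E → E} (hX : LipschitzWith 1 X) (r : ℝ) (hr : |r| ≤ 1 / 2) (q : E) :
    pert hX r hr q = q - r • X q := rfl

theorem pert_smooth {X : E → E} (hX : LipschitzWith 1 X) (hs : ContDiff ℝ ∞ X) (r : ℝ)
    (hr : |r| ≤ 1 / 2) : ContDiff ℝ ∞ (pert hX r hr) :=
  contDiff_id.sub (contDiff_const.smul hs)

theorem fderiv_norm_le {X : E → E} (hX : LipschitzWith 1 X) (q : E) : ‖fderiv ℝ X q‖ ≤ 1 := by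
  have := norm_fderiv_le_of_lipschitz ℝ hX (x₀ := q)
  simpa using this

theorem pert_fderiv {X : E → E} (hX : LipschitzWith 1 X) (hs : ContDiff ℝ ∞ X) (r : ℝ)
    (hr : |r| ≤ 1 / 2) (q v : E) :
    fderiv ℝ (pert hX r hr) q v = v - r • fderiv ℝ X q v := by
  have hd : DifferentiableAt ℝ X q := hs.contDiffAt.differentiableAt (by norm_num)
  have h1 : HasFDerivAt (fun q => q - r • X q)
      (ContinuousLinearMap.id ℝ E - r • fderiv ℝ X q) q :=
    (hasFDerivAt_id q).sub (hd.hasFDerivAt.const_smul r)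
  have h2 : HasFDerivAt (pert hX r hr) (ContinuousLinearMap.id ℝ E - r • fderiv ℝ X q) q := h1
  rw [h2.fderiv]
  rfl

theorem inj_aux {X : E → E} (hX : LipschitzWith 1 X) (r : ℝ)
    (hr : |r| ≤ 1 / 2) (q v : E) (h : v - r • fderiv ℝ X q v = 0) : v = 0 := by
  have h1 : ‖v‖ = |r| * ‖fderiv ℝ X q v‖ := by
    rw [← Real.norm_eq_abs, ← norm_smul, ← sub_eq_zero.1 h]
  have h2 : ‖fderiv ℝ X q v‖ ≤ 1 * ‖v‖ :=
    (fderiv ℝ X q).le_of_opNorm_le (fderiv_norm_le hX q) v
  have h3 : ‖v‖ ≤ 1 / 2 * ‖v‖ := by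
    calc ‖v‖ = |r| * ‖fderiv ℝ X q v‖ := h1
      _ ≤ 1 / 2 * ‖v‖ := by nlinarith [norm_nonneg (fderiv ℝ X q v), norm_nonneg v]
  have h4 : ‖v‖ ≤ 0 := by linarith
  exact norm_le_zero_iff.1 h4

theorem pert_symm_smooth {X : E → E} (hX : LipschitzWith 1 X) (hs : ContDiff ℝ ∞ X) (r : ℝ)
    (hr : |r| ≤ 1 / 2) : ContDiff ℝ ∞ (pert hX r hr).symm := by
  refine contDiff_symm_of _ (pert_smooth hX hs r hr) ?_
  intro q v h
  rw [pert_fderiv hX hs] at h
  exact inj_aux hX r hr q v h

theorem abs_sp_le (t : ℝ) : |sp t| ≤ 1 / 2 := by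
  rw [abs_of_nonneg (sp_nonneg t)]
  exact sp_le t

theorem abs_neg_sp_le (t : ℝ) : |-sp t| ≤ 1 / 2 := by
  rw [abs_neg]
  exact abs_sp_le t

/-- all the maps `q ↦ q - s(t) X(q)` together -/
noncomputable def bigPert {X : E → E} (hX : LipschitzWith 1 X) : ℝ × E ≃ ℝ × E where
  toFun z := (z.1, pert hX (sp z.1) (abs_sp_le z.1) z.2)
  invFun z := (z.1, (pert hX (sp z.1) (abs_sp_le z.1)).symm z.2)
  left_inv z := by simp
  right_inv z := by simp

theorem bigPert_smooth {X : E → E} (hX : LipschitzWith 1 X) (hs : ContDiff ℝ ∞ X) :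
    ContDiff ℝ ∞ (bigPert hX) := by
  have : (bigPert hX : ℝ × E → ℝ × E) = fun z => (z.1, z.2 - sp z.1 • X z.2) := rfl
  rw [this]
  exact contDiff_fst.prodMk (contDiff_snd.sub ((sp_smooth.comp contDiff_fst).smul
    (hs.comp contDiff_snd)))

theorem bigPert_symm_smooth {X : E → E} (hX : LipschitzWith 1 X) (hs : ContDiff ℝ ∞ X) :
    ContDiff ℝ ∞ (bigPert hX).symm := by
  refine contDiff_symm_of _ (bigPert_smooth hX hs) ?_
  rintro ⟨t, q⟩ ⟨a, v⟩ h
  have hfun : (bigPert hX : ℝ × E → ℝ × E) = fun z => (z.1, z.2 - sp z.1 • X z.2) := rfl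
  have hdX : HasFDerivAt X (fderiv ℝ X q) q :=
    (hs.contDiffAt.differentiableAt (by norm_num)).hasFDerivAt
  have hds : HasFDerivAt sp (fderiv ℝ sp t) t :=
    (sp_smooth.contDiffAt.differentiableAt (by norm_num)).hasFDerivAt
  have h1 : HasFDerivAt (fun z : ℝ × E => X z.2)
      ((fderiv ℝ X q).comp (ContinuousLinearMap.snd ℝ ℝ E)) (t, q) :=
    HasFDerivAt.comp (t, q) (g := X) (f := Prod.snd) hdX hasFDerivAt_snd
  have h2 : HasFDerivAt (fun z : ℝ × E => sp z.1)
      ((fderiv ℝ sp t).comp (ContinuousLinearMap.fst ℝ ℝ E)) (t, q) :=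
    HasFDerivAt.comp (t, q) (g := sp) (f := Prod.fst) hds hasFDerivAt_fst
  have h3 := (hasFDerivAt_fst (𝕜 := ℝ) (p := (t, q))).prodMk
    ((hasFDerivAt_snd (𝕜 := ℝ) (p := (t, q))).sub (h2.smul h1))
  rw [hfun] at h
  rw [HasFDerivAt.fderiv (f := fun z : ℝ × E => (z.1, z.2 - sp z.1 • X z.2)) h3] at h
  have ha : a = 0 := by simpa using congrArg Prod.fst h
  have hv := congrArg Prod.snd h
  subst ha
  have hv' : v - sp t • fderiv ℝ X q v = 0 := by simpa using hv
  exact Prod.ext rfl (inj_aux hX (sp t) (abs_sp_le t) q v hv')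

end general

end Pool.Agent.W71.EC
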