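import Mathlib
import Pool.Agent.W71.EC.Defs
import Pool.Agent.W71.EC.Inv

set_option autoImplicit false

open scoped ContDiff Topology NNReal

namespace Pool.Agent.W71.EC

section omega

variable {n : ℕ}

theorem omega_add_left (u u' v : R2 n) : omega (u + u') v = omega u v + omega u' v := by
  unfold omega
  rw [← Finset.sum_add_distrib]
  refine Finset.sum_congr rfl fun i _ => ?_
  simp only [Prod.fst_add, Prod.snd_add, Pi.add_apply]
  ring

theorem omega_add_right (u v v' : R2 n) : omega u (v + v') = omega u v + omega u v' := by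
  unfold omega
  rw [← Finset.sum_add_distrib]
  refine Finset.sum_congr rfl fun i _ => ?_
  simp only [Prod.fst_add, Prod.snd_add, Pi.add_apply]
  ring

theorem omega_smul_left (c : ℝ) (u v : R2 n) : omega (c • u) v = c * omega u v := by
  unfold omega
  rw [Finset.mul_sum]
  refine Finset.sum_congr rfl fun i _ => ?_
  simp only [Prod.smul_fst, Prod.smul_snd, Pi.smul_apply, smul_eq_mul]
  ring

theorem omega_smul_right (c : ℝ) (u v : R2 n) : omega u (c • v) = c * omega u v := by
  unfold omega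
  rw [Finset.mul_sum]
  refine Finset.sum_congr rfl fun i _ => ?_
  simp only [Prod.smul_fst, Prod.smul_snd, Pi.smul_apply, smul_eq_mul]
  ring

theorem omega_sub_left (u u' v : R2 n) : omega (u - u') v = omega u v - omega u' v := by
  rw [sub_eq_add_neg, omega_add_left, ← neg_one_smul ℝ u', omega_smul_left]
  ring

theorem omega_sub_right (u v v' : R2 n) : omega u (v - v') = omega u v - omega u v' := by
  rw [sub_eq_add_neg, omega_add_right, ← neg_one_smul ℝ v', omega_smul_right]
  ring

end omega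

section param

variable {E F : Type*} [NormedAddCommGroup E] [NormedSpace ℝ E] [NormedAddCommGroup F]
  [NormedSpace ℝ F]

/-- iterated derivatives of a smooth family depend smoothly on the parameter -/
theorem contDiff_iter (G : ℝ × E → F) (hG : ContDiff ℝ ∞ G) (k : ℕ) :
    ContDiff ℝ ∞ (fun z : ℝ × E => iteratedFDeriv ℝ k (fun x => G (z.1, x)) z.2) := by
  induction k with
  | zero =>
    have : (fun z : ℝ × E => iteratedFDeriv ℝ 0 (fun x => G (z.1, x)) z.2) =
        fun z => (continuousMultilinearCurryFin0 ℝ E F).symm (G z) := by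
      funext z
      rw [iteratedFDeriv_zero_eq_comp]
      rfl
    rw [this]
    exact (continuousMultilinearCurryFin0 ℝ E F).symm.contDiff.comp hG
  | succ k ih =>
    have : (fun z : ℝ × E => iteratedFDeriv ℝ (k + 1) (fun x => G (z.1, x)) z.2) =
        fun z => (continuousMultilinearCurryLeftEquiv ℝ (fun _ : Fin (k + 1) => E) F).symm
          (fderiv ℝ (iteratedFDeriv ℝ k (fun x => G (z.1, x))) z.2) := by
      funext z
      rw [iteratedFDeriv_succ_eq_comp_left]
      rfl
    rw [this]
    refine ContDiff.comp (g := fun a : E →L[ℝ] (E [×k]→L[ℝ] F) =>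
      (continuousMultilinearCurryLeftEquiv ℝ (fun _ : Fin (k + 1) => E) F).symm a)
      (LinearIsometryEquiv.contDiff (𝕜 := ℝ) (E := E →L[ℝ] (E [×k]→L[ℝ] F))
        (F := E [×(k+1)]→L[ℝ] F) (continuousMultilinearCurryLeftEquiv ℝ
        (fun _ : Fin (k + 1) => E) F).symm) ?_
    have h1 : ContDiff ℝ ∞ (Function.uncurry (fun (z : ℝ × E) (x : E) =>
        iteratedFDeriv ℝ k (fun x => G (z.1, x)) x)) := by
      have h2 : ContDiff ℝ ∞ (fun w : (ℝ × E) × E => (w.1.1, w.2)) :=
        (contDiff_fst.comp contDiff_fst).prodMk contDiff_snd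
      exact ih.comp h2
    exact ContDiff.fderiv h1 contDiff_snd (by simp)

end param

section path

variable {n : ℕ}

/-- A smooth family of symplectomorphisms supported in `K` is a continuous path. -/
theorem continuous_family (K : Set (R2 n)) (hK : IsCompact K) (γ : ℝ → SympCt n)
    (hs : ContDiff ℝ ∞ (fun z : ℝ × R2 n => (γ z.1).toEquiv z.2))
    (hγ : ∀ t, γ t ∈ supportedIn K) : Continuous γ := by
  let C : TopologicalSpace.Compacts (R2 n) := ⟨K, hK⟩
  let _ : TopologicalSpace (supportedIn K) := smoothTopology K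
  have h1 : Continuous (fun t : ℝ => (⟨γ t, hγ t⟩ : supportedIn K)) := by
    refine continuous_iInf_rng.2 fun k => ?_
    refine continuous_induced_rng.2 ?_
    refine ContinuousMap.continuous_of_continuous_uncurry _ ?_
    exact (contDiff_iter (fun z : ℝ × R2 n => (γ z.1).toEquiv z.2) hs k).continuous
  have h2 : Continuous (Subtype.val : supportedIn K → SympCt n) := by
    rw [continuous_iff_coinduced_le]
    exact le_iSup (fun C : TopologicalSpace.Compacts (R2 n) =>
      TopologicalSpace.coinduced (Subtype.val : supportedIn (C : Set (R2 n)) → SympCt n)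
      (smoothTopology (C : Set (R2 n)))) C
  exact h2.comp h1

theorem SympCt.ext' {φ ψ : SympCt n} (h : ∀ p, φ.toEquiv p = ψ.toEquiv p) : φ = ψ := by
  cases φ
  cases ψ
  congr
  exact Equiv.ext h

theorem inv_left {f : R2 n ≃ R2 n} (hf : ContDiff ℝ ∞ f) (hg : ContDiff ℝ ∞ f.symm) (p u : R2 n) :
    fderiv ℝ f (f.symm p) (fderiv ℝ f.symm p u) = u := by
  have h1 : HasFDerivAt f (fderiv ℝ f (f.symm p)) (f.symm p) :=
    (hf.contDiffAt.differentiableAt (by norm_num)).hasFDerivAt
  have h2 : HasFDerivAt f.symm (fderiv ℝ f.symm p) p :=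
    (hg.contDiffAt.differentiableAt (by norm_num)).hasFDerivAt
  have h3 := h1.comp p h2
  have h4 : (f ∘ f.symm : R2 n → R2 n) = id := by
    funext x
    simp
  rw [h4] at h3
  have h5 := h3.unique (hasFDerivAt_id p)
  exact DFunLike.congr_fun h5 u

/-- composition -/
noncomputable def comp (φ ψ : SympCt n) : SympCt n where
  toEquiv := ψ.toEquiv.trans φ.toEquiv
  smooth := φ.smooth.comp ψ.smooth
  smooth_symm := ψ.smooth_symm.comp φ.smooth_symm
  symplectic p u v := by
    have h1 : HasFDerivAt φ.toEquiv (fderiv ℝ φ.toEquiv (ψ.toEquiv p)) (ψ.toEquiv p) :=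
      (φ.smooth.contDiffAt.differentiableAt (by norm_num)).hasFDerivAt
    have h2 : HasFDerivAt ψ.toEquiv (fderiv ℝ ψ.toEquiv p) p :=
      (ψ.smooth.contDiffAt.differentiableAt (by norm_num)).hasFDerivAt
    have h3 := h1.comp p h2
    have h4 : ((ψ.toEquiv.trans φ.toEquiv : R2 n ≃ R2 n) : R2 n → R2 n) =
      φ.toEquiv ∘ ψ.toEquiv := rfl
    rw [h4, h3.fderiv]
    simp only [ContinuousLinearMap.comp_apply]
    rw [φ.symplectic, ψ.symplectic]
  compact_support := by
    obtain ⟨K, hK, h1⟩ := φ.compact_support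
    obtain ⟨L, hL, h2⟩ := ψ.compact_support
    refine ⟨K ∪ L, hK.union hL, fun p hp => ?_⟩
    rw [Equiv.trans_apply, h2 p (fun h => hp (Or.inr h)), h1 p (fun h => hp (Or.inl h))]

/-- inverse -/
noncomputable def inv (φ : SympCt n) : SympCt n where
  toEquiv := φ.toEquiv.symm
  smooth := φ.smooth_symm
  smooth_symm := φ.smooth
  symplectic p u v := by
    have h1 := inv_left φ.smooth φ.smooth_symm p u
    have h2 := inv_left φ.smooth φ.smooth_symm p v
    conv_rhs => rw [← h1, ← h2]
    rw [φ.symplectic]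
  compact_support := by
    obtain ⟨K, hK, h1⟩ := φ.compact_support
    refine ⟨K, hK, fun p hp => ?_⟩
    rw [Equiv.symm_apply_eq, h1 p hp]

theorem comp_supp {K : Set (R2 n)} {φ ψ : SympCt n} (h1 : φ ∈ supportedIn K)
    (h2 : ψ ∈ supportedIn K) : comp φ ψ ∈ supportedIn K := by
  intro p hp
  change φ.toEquiv (ψ.toEquiv p) = p
  rw [h2 p hp, h1 p hp]

theorem inv_supp {K : Set (R2 n)} {φ : SympCt n} (h1 : φ ∈ supportedIn K) :
    inv φ ∈ supportedIn K := by
  intro p hp
  change φ.toEquiv.symm p = p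
  rw [Equiv.symm_apply_eq, h1 p hp]

/-- The infinitesimally symplectic condition. -/
def IsSp (X : R2 n → R2 n) : Prop :=
  ∀ q u v : R2 n, omega (fderiv ℝ X q u) v + omega u (fderiv ℝ X q v) = 0

/-- The Cayley type transform of `s(t) X` -/
noncomputable def cayley {X : R2 n → R2 n} (hX : LipschitzWith 1 X) (hs : ContDiff ℝ ∞ X)
    (hsp : IsSp X) (K : Set (R2 n)) (hK : IsCompact K) (h0 : ∀ q, q ∉ K → X q = 0) (t : ℝ) :
    SympCt n where
  toEquiv := (pert hX (sp t) (abs_sp_le t)).symm.trans (pert hX (-sp t) (abs_neg_sp_le t))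
  smooth := (pert_smooth hX hs (-sp t) (abs_neg_sp_le t)).comp
    (pert_symm_smooth hX hs (sp t) (abs_sp_le t))
  smooth_symm := (pert_smooth hX hs (sp t) (abs_sp_le t)).comp
    (pert_symm_smooth hX hs (-sp t) (abs_neg_sp_le t))
  symplectic p u v := by
    set P := pert hX (sp t) (abs_sp_le t) with hP
    set Q := pert hX (-sp t) (abs_neg_sp_le t) with hQ
    have hPs : ContDiff ℝ ∞ P := pert_smooth hX hs _ _
    have hPi : ContDiff ℝ ∞ P.symm := pert_symm_smooth hX hs _ _
    have hQs : ContDiff ℝ ∞ Q := pert_smooth hX hs _ _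
    have h1 : HasFDerivAt Q (fderiv ℝ Q (P.symm p)) (P.symm p) :=
      (hQs.contDiffAt.differentiableAt (by norm_num)).hasFDerivAt
    have h2 : HasFDerivAt P.symm (fderiv ℝ P.symm p) p :=
      (hPi.contDiffAt.differentiableAt (by norm_num)).hasFDerivAt
    have h3 := h1.comp p h2
    have h4 : ((P.symm.trans Q : R2 n ≃ R2 n) : R2 n → R2 n) = Q ∘ P.symm := rfl
    rw [h4, h3.fderiv]
    simp only [ContinuousLinearMap.comp_apply]
    have hu := inv_left hPs hPi p u
    have hv := inv_left hPs hPi p v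
    conv_rhs => rw [← hu, ← hv]
    rw [hP, hQ, pert_fderiv hX hs, pert_fderiv hX hs, pert_fderiv hX hs, pert_fderiv hX hs]
    have e1 := hsp (P.symm p) (fderiv ℝ P.symm p u) (fderiv ℝ P.symm p v)
    simp only [omega_sub_left, omega_sub_right, omega_smul_left, omega_smul_right]
    linear_combination (2 * sp t) * e1
  compact_support := by
    refine ⟨K, hK, fun p hp => ?_⟩
    rw [Equiv.trans_apply]
    have e1 : (pert hX (sp t) (abs_sp_le t)).symm p = p := by
      rw [Equiv.symm_apply_eq, pert_apply, h0 p hp, smul_zero, sub_zero]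
    rw [e1, pert_apply, h0 p hp, smul_zero, sub_zero]

theorem cayley_supp {X : R2 n → R2 n} (hX : LipschitzWith 1 X) (hs : ContDiff ℝ ∞ X)
    (hsp : IsSp X) (K : Set (R2 n)) (hK : IsCompact K) (h0 : ∀ q, q ∉ K → X q = 0) (t : ℝ) :
    cayley hX hs hsp K hK h0 t ∈ supportedIn K := by
  intro p hp
  change (pert hX (sp t) (abs_sp_le t)).symm.trans (pert hX (-sp t) (abs_neg_sp_le t)) p = p
  rw [Equiv.trans_apply]
  have e1 : (pert hX (sp t) (abs_sp_le t)).symm p = p := by
    rw [Equiv.symm_apply_eq, pert_apply, h0 p hp, smul_zero, sub_zero]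
  rw [e1, pert_apply, h0 p hp, smul_zero, sub_zero]

/-- the path -/
theorem cayley_path {X : R2 n → R2 n} (hX : LipschitzWith 1 X) (hs : ContDiff ℝ ∞ X)
    (hsp : IsSp X) (K : Set (R2 n)) (hK : IsCompact K) (h0 : ∀ q, q ∉ K → X q = 0)
    (ψ : SympCt n) (hψ : ψ ∈ supportedIn K) :
    Continuous (fun t => comp (cayley hX hs hsp K hK h0 t) ψ) := by
  refine continuous_family K hK _ ?_ (fun t => comp_supp (cayley_supp hX hs hsp K hK h0 t) hψ)
  have h1 : (fun z : ℝ × R2 n => (comp (cayley hX hs hsp K hK h0 z.1) ψ).toEquiv z.2) =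
      fun z => ((bigPert hX).symm (z.1, ψ.toEquiv z.2)).2 +
        sp z.1 • X ((bigPert hX).symm (z.1, ψ.toEquiv z.2)).2 := by
    funext z
    change pert hX (-sp z.1) (abs_neg_sp_le z.1)
      ((pert hX (sp z.1) (abs_sp_le z.1)).symm (ψ.toEquiv z.2)) = _
    rw [pert_apply, neg_smul, sub_neg_eq_add]
    rfl
  rw [h1]
  have h2 : ContDiff ℝ ∞ (fun z : ℝ × R2 n => ((bigPert hX).symm (z.1, ψ.toEquiv z.2)).2) :=
    contDiff_snd.comp ((bigPert_symm_smooth hX hs).comp
      (contDiff_fst.prodMk (ψ.smooth.comp contDiff_snd)))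
  exact h2.add ((sp_smooth.comp contDiff_fst).smul (hs.comp h2))

/-- An element which is `C¹`-close to the identity is joined to the identity, with supports in `K`;
more precisely, `ψ` and `θ ψ` are joined by a path. -/
theorem joined_of_close (K : Set (R2 n)) (hK : IsCompact K) (θ ψ : SympCt n)
    (hθ : θ ∈ supportedIn K) (hψ : ψ ∈ supportedIn K)
    (hc : ∀ p, ‖fderiv ℝ θ.toEquiv p - ContinuousLinearMap.id ℝ (R2 n)‖ ≤ 1 / 2) :
    Joined ψ (comp θ ψ) := by
  have hdθ : ∀ p, HasFDerivAt θ.toEquiv (fderiv ℝ θ.toEquiv p) p := fun p =>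
    (θ.smooth.contDiffAt.differentiableAt (by norm_num)).hasFDerivAt
  let Y : R2 n → R2 n := fun p => p - θ.toEquiv p
  have hYs : ContDiff ℝ ∞ Y := contDiff_id.sub θ.smooth
  have hYd : ∀ p, HasFDerivAt Y (ContinuousLinearMap.id ℝ (R2 n) - fderiv ℝ θ.toEquiv p) p :=
    fun p => (hasFDerivAt_id p).sub (hdθ p)
  have hYL : LipschitzWith (1 / 2) Y := by
    refine lipschitzWith_of_nnnorm_fderiv_le (𝕜 := ℝ)
      (fun p => (hYd p).differentiableAt) fun p => ?_
    rw [(hYd p).fderiv]
    rw [← NNReal.coe_le_coe, coe_nnnorm, norm_sub_rev]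
    simpa using hc p
  have hY1 : LipschitzWith 1 Y := hYL.weaken (by
    rw [← NNReal.coe_le_coe]
    norm_num)
  have hh : |(1 / 2 : ℝ)| ≤ 1 / 2 := by rw [abs_of_nonneg (by norm_num)]
  set m := pert hY1 (1 / 2) hh with hm
  have hms : ContDiff ℝ ∞ m := pert_smooth hY1 hYs _ _
  have hmi : ContDiff ℝ ∞ m.symm := pert_symm_smooth hY1 hYs _ _
  let X : R2 n → R2 n := fun q => - Y (m.symm q)
  have hXs : ContDiff ℝ ∞ X := (hYs.comp hmi).neg
  have hXm : ∀ p, X (m p) = θ.toEquiv p - p := by
    intro p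
    change - Y (m.symm (m p)) = _
    rw [Equiv.symm_apply_apply]
    exact neg_sub _ _
  have hXL : LipschitzWith 1 X := by
    refine LipschitzWith.of_dist_le_mul fun a b => ?_
    obtain ⟨p, rfl⟩ := m.surjective a
    obtain ⟨q, rfl⟩ := m.surjective b
    have e1 : dist (X (m p)) (X (m q)) = dist (Y p) (Y q) := by
      change dist (- Y (m.symm (m p))) (- Y (m.symm (m q))) = _
      rw [Equiv.symm_apply_apply, Equiv.symm_apply_apply, dist_neg_neg]
    have e2 : dist (Y p) (Y q) ≤ 1 / 2 * dist p q := by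
      have := hYL.dist_le_mul p q
      simpa using this
    have e3 : dist p q ≤ dist (m p) (m q) + 1 / 2 * dist (Y p) (Y q) := by
      have f1 : m p = p - (1 / 2 : ℝ) • Y p := rfl
      have f2 : m q = q - (1 / 2 : ℝ) • Y q := rfl
      have f3 : p - q = (m p - m q) + (1 / 2 : ℝ) • (Y p - Y q) := by
        rw [f1, f2]
        module
      rw [dist_eq_norm p q, f3]
      refine (norm_add_le _ _).trans ?_
      rw [norm_smul, dist_eq_norm, dist_eq_norm, Real.norm_eq_abs, abs_of_nonneg (by norm_num)]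
    have e4 : (0 : ℝ) ≤ dist p q := dist_nonneg
    have e5 : (0 : ℝ) ≤ dist (m p) (m q) := dist_nonneg
    rw [e1]
    simp only [NNReal.coe_one, one_mul]
    linarith
  have hX0 : ∀ q, q ∉ K → X q = 0 := by
    intro q hq
    have e1 : m q = q := by
      change q - (1 / 2 : ℝ) • (q - θ.toEquiv q) = q
      rw [hθ q hq, sub_self, smul_zero, sub_zero]
    have e2 := hXm q
    rw [e1, hθ q hq, sub_self] at e2
    exact e2
  have hXsp : IsSp X := by
    intro q u v
    obtain ⟨p, rfl⟩ := m.surjective q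
    have hmd : ∀ w, fderiv ℝ m p w = (1 / 2 : ℝ) • (w + fderiv ℝ θ.toEquiv p w) := by
      intro w
      rw [hm, pert_fderiv hY1 hYs, (hYd p).fderiv]
      simp only [sub_apply, ContinuousLinearMap.id_apply]
      module
    have hXd : ∀ w, fderiv ℝ X (m p) (fderiv ℝ m p w) = fderiv ℝ θ.toEquiv p w - w := by
      intro w
      have h1 : HasFDerivAt X (fderiv ℝ X (m p)) (m p) :=
        (hXs.contDiffAt.differentiableAt (by norm_num)).hasFDerivAt
      have h2 : HasFDerivAt m (fderiv ℝ m p) p :=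
        (hms.contDiffAt.differentiableAt (by norm_num)).hasFDerivAt
      have h3 := h1.comp p h2
      have h4 : (X ∘ m : R2 n → R2 n) = fun p => θ.toEquiv p - p := by
        funext x
        exact hXm x
      rw [h4] at h3
      have h5 := h3.unique ((hdθ p).sub (hasFDerivAt_id p))
      exact DFunLike.congr_fun h5 w
    have hu := inv_left hms hmi (m p) u
    have hv := inv_left hms hmi (m p) v
    rw [Equiv.symm_apply_apply] at hu hv
    set u' := fderiv ℝ m.symm (m p) u
    set v' := fderiv ℝ m.symm (m p) v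
    rw [← hu, ← hv, hXd, hXd, hmd, hmd]
    have e := θ.symplectic p u' v'
    simp only [omega_sub_left, omega_sub_right, omega_smul_left, omega_smul_right,
      omega_add_left, omega_add_right]
    linear_combination e
  have hcont := cayley_path hXL hXs hXsp K hK hX0 ψ hψ
  have e0 : comp (cayley hXL hXs hXsp K hK hX0 0) ψ = ψ := by
    refine SympCt.ext' fun p => ?_
    change (pert hXL (-sp 0) (abs_neg_sp_le 0)) ((pert hXL (sp 0) (abs_sp_le 0)).symm
      (ψ.toEquiv p)) = _
    have : (pert hXL (sp 0) (abs_sp_le 0)).symm (ψ.toEquiv p) = ψ.toEquiv p := by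
      rw [Equiv.symm_apply_eq, pert_apply, sp_zero, zero_smul, sub_zero]
    rw [this, pert_apply, sp_zero, neg_zero, zero_smul, sub_zero]
  have e1 : comp (cayley hXL hXs hXsp K hK hX0 1) ψ = comp θ ψ := by
    refine SympCt.ext' fun p => ?_
    change (pert hXL (-sp 1) (abs_neg_sp_le 1)) ((pert hXL (sp 1) (abs_sp_le 1)).symm
      (ψ.toEquiv p)) =
      θ.toEquiv (ψ.toEquiv p)
    set x := ψ.toEquiv p
    have hmx : m x = (1 / 2 : ℝ) • (x + θ.toEquiv x) := by
      change x - (1 / 2 : ℝ) • (x - θ.toEquiv x) = _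
      module
    have : (pert hXL (sp 1) (abs_sp_le 1)).symm x = m x := by
      rw [Equiv.symm_apply_eq, pert_apply, sp_one, hXm, hmx]
      module
    rw [this, pert_apply, sp_one, hXm, hmx]
    module
  refine ⟨⟨⟨fun t => comp (cayley hXL hXs hXsp K hK hX0 (t : ℝ)) ψ,
    hcont.comp continuous_subtype_val⟩, ?_, ?_⟩⟩
  · simpa using e0
  · simpa using e1

end path

end Pool.Agent.W71.EC
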