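import Mathlib
import Pool.Agent.W71.EC.Path

set_option autoImplicit false

open scoped ContDiff Topology NNReal

namespace Pool.Agent.W71.EC

variable {n : ℕ}

/-- the differential as a continuous map -/
noncomputable def dmap (φ : SympCt n) : C(R2 n, R2 n →L[ℝ] R2 n) :=
  ⟨fderiv ℝ φ.toEquiv, φ.smooth.continuous_fderiv (by norm_num)⟩

/-- the inverse differential as a continuous map -/
noncomputable def dinv (φ : SympCt n) : C(R2 n, R2 n →L[ℝ] R2 n) :=
  ⟨fun x => fderiv ℝ φ.toEquiv.symm (φ.toEquiv x),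
    (φ.smooth_symm.continuous_fderiv (by norm_num)).comp φ.smooth.continuous⟩

theorem fderiv_comp_inv (φ ψ : SympCt n) (p : R2 n) :
    fderiv ℝ (comp φ (inv ψ)).toEquiv p - ContinuousLinearMap.id ℝ (R2 n) =
      (dmap φ (ψ.toEquiv.symm p) - dmap ψ (ψ.toEquiv.symm p)) * dinv ψ (ψ.toEquiv.symm p) := by
  have h1 : HasFDerivAt φ.toEquiv (fderiv ℝ φ.toEquiv (ψ.toEquiv.symm p)) (ψ.toEquiv.symm p) :=
    (φ.smooth.contDiffAt.differentiableAt (by norm_num)).hasFDerivAt
  have h2 : HasFDerivAt ψ.toEquiv.symm (fderiv ℝ ψ.toEquiv.symm p) p :=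
    (ψ.smooth_symm.contDiffAt.differentiableAt (by norm_num)).hasFDerivAt
  have h3 := h1.comp p h2
  have h4 : (((comp φ (inv ψ)).toEquiv : R2 n ≃ R2 n) : R2 n → R2 n) =
    φ.toEquiv ∘ ψ.toEquiv.symm := rfl
  rw [h4, h3.fderiv]
  refine ContinuousLinearMap.ext fun u => ?_
  have h5 := inv_left ψ.smooth ψ.smooth_symm p u
  change fderiv ℝ φ.toEquiv (ψ.toEquiv.symm p) (fderiv ℝ ψ.toEquiv.symm p u) - u =
    fderiv ℝ φ.toEquiv (ψ.toEquiv.symm p)
      (fderiv ℝ ψ.toEquiv.symm (ψ.toEquiv (ψ.toEquiv.symm p)) u) -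
    fderiv ℝ ψ.toEquiv (ψ.toEquiv.symm p)
      (fderiv ℝ ψ.toEquiv.symm (ψ.toEquiv (ψ.toEquiv.symm p)) u)
  rw [Equiv.apply_symm_apply, h5]

/-- The elements `C¹`-close to `ψ` on `K`. -/
def close (K : Set (R2 n)) (ψ : SympCt n) : Set (supportedIn K) :=
  {φ | ∀ x ∈ K, ‖(dmap φ.1 x - dmap ψ x) * dinv ψ x‖ < 1 / 2}

theorem joined_of_mem_close (K : Set (R2 n)) (hK : IsCompact K) (φ ψ : SympCt n)
    (hφ : φ ∈ supportedIn K) (hψ : ψ ∈ supportedIn K)
    (h : (⟨φ, hφ⟩ : supportedIn K) ∈ close K ψ) : Joined ψ φ := by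
  have h1 : ∀ p, ‖fderiv ℝ (comp φ (inv ψ)).toEquiv p - ContinuousLinearMap.id ℝ (R2 n)‖
      ≤ 1 / 2 := by
    intro p
    rw [fderiv_comp_inv]
    by_cases hp : ψ.toEquiv.symm p ∈ K
    · exact (h _ hp).le
    · have e1 : dmap φ (ψ.toEquiv.symm p) = dmap ψ (ψ.toEquiv.symm p) := by
        change fderiv ℝ φ.toEquiv _ = fderiv ℝ ψ.toEquiv _
        refine Filter.EventuallyEq.fderiv_eq ?_
        filter_upwards [hK.isClosed.isOpen_compl.mem_nhds hp] with x hx
        rw [hφ x hx, hψ x hx]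
      rw [e1, sub_self, zero_mul, norm_zero]
      norm_num
  have h2 := joined_of_close K hK (comp φ (inv ψ)) ψ (comp_supp hφ (inv_supp hψ)) hψ h1
  have h3 : comp (comp φ (inv ψ)) ψ = φ := by
    refine SympCt.ext' fun p => ?_
    change φ.toEquiv (ψ.toEquiv.symm (ψ.toEquiv p)) = φ.toEquiv p
    rw [Equiv.symm_apply_apply]
  rwa [h3] at h2

theorem countable_cover (K : Set (R2 n)) (hK : IsCompact K) :
    ∃ S : Set (SympCt n), S.Countable ∧ S ⊆ supportedIn K ∧
      ∀ φ ∈ supportedIn K, ∃ ψ ∈ S, Joined ψ φ := by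
  let τ : TopologicalSpace (supportedIn K) :=
    TopologicalSpace.induced (fun φ : supportedIn K => dmap φ.1) ContinuousMap.compactOpen
  have hsc : SecondCountableTopology (supportedIn K) :=
    TopologicalSpace.secondCountableTopology_induced _ _ _
  have hnhds : ∀ ψ : supportedIn K, close K ψ.1 ∈ 𝓝 ψ := by
    intro ψ
    have hcont : Continuous (fun φ : supportedIn K => (dmap φ.1 - dmap ψ.1) * dinv ψ.1) := by
      have h1 : Continuous (fun φ : supportedIn K => dmap φ.1) := continuous_induced_dom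
      exact (h1.sub continuous_const).mul continuous_const
    have hopen : IsOpen {f : C(R2 n, R2 n →L[ℝ] R2 n) | Set.MapsTo f K (Metric.ball 0 (1 / 2))} :=
      ContinuousMap.isOpen_setOfPred_mapsTo hK Metric.isOpen_ball
    have h2 : close K ψ.1 = (fun φ : supportedIn K => (dmap φ.1 - dmap ψ.1) * dinv ψ.1) ⁻¹'
        {f : C(R2 n, R2 n →L[ℝ] R2 n) | Set.MapsTo f K (Metric.ball 0 (1 / 2))} := by
      ext φ
      simp only [close, Set.mem_ofPred_eq, Set.mem_preimage, Set.MapsTo, mem_ball_zero_iff]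
      rfl
    rw [h2]
    refine (hopen.preimage hcont).mem_nhds ?_
    intro x _
    simp
  obtain ⟨S, hS, hcov⟩ := TopologicalSpace.countable_cover_nhds hnhds
  refine ⟨Subtype.val '' S, hS.image _, ?_, ?_⟩
  · rintro _ ⟨ψ, _, rfl⟩
    exact ψ.2
  · intro φ hφ
    have : (⟨φ, hφ⟩ : supportedIn K) ∈ ⋃ x ∈ S, close K x.1 := by
      rw [hcov]
      trivial
    simp only [Set.mem_iUnion] at this
    obtain ⟨ψ, hψ, h⟩ := this
    exact ⟨ψ.1, ⟨ψ, hψ, rfl⟩, joined_of_mem_close K hK φ ψ.1 hφ ψ.2 h⟩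

/-- `π₀` of the group is countable. -/
theorem countable_pi0 (n : ℕ) : Countable (ZerothHomotopy (SympCt n)) := by
  choose S hS _ h2 using fun m : ℕ =>
    countable_cover (Metric.closedBall (0 : R2 n) m) (isCompact_closedBall _ _)
  have h3 : (⋃ m, S m).Countable := Set.countable_iUnion hS
  have h4 : Function.Surjective (fun ψ : (⋃ m, S m : Set (SympCt n)) =>
      (Quotient.mk _ ψ.1 : ZerothHomotopy (SympCt n))) := by
    intro c
    obtain ⟨φ, rfl⟩ := Quotient.exists_rep c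
    obtain ⟨K, hK, hφ⟩ := φ.compact_support
    obtain ⟨r, hr⟩ := hK.isBounded.subset_closedBall (0 : R2 n)
    obtain ⟨m, hm⟩ := exists_nat_ge r
    have h5 : φ ∈ supportedIn (Metric.closedBall (0 : R2 n) m) := by
      intro p hp
      exact hφ p fun hpK => hp (Metric.closedBall_subset_closedBall hm (hr hpK))
    obtain ⟨ψ, hψ, h6⟩ := h2 m φ h5
    exact ⟨⟨ψ, Set.mem_iUnion.2 ⟨m, hψ⟩⟩, Quotient.sound h6⟩
  have := h3.to_subtype
  exact h4.countable

end Pool.Agent.W71.EC
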