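import Mathlib
import Pool.Agent.W71.EC.Inv

set_option autoImplicit false

open scoped ContDiff Topology NNReal

namespace Pool.Agent.W71.EC

section cont

variable {E : Type*} [NormedAddCommGroup E] [NormedSpace ℝ E] [FiniteDimensional ℝ E]

/-- the differential of a map vanishing outside a compact set vanishes there -/
theorem fderiv_out {X : E → E} {K : Set E} (hK : IsCompact K) (h0 : ∀ q, q ∉ K → X q = 0)
    {q : E} (hq : q ∉ K) : fderiv ℝ X q = 0 := by
  have h1 : X =ᶠ[𝓝 q] fun _ => (0 : E) := by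
    filter_upwards [hK.isClosed.isOpen_compl.mem_nhds hq] with x hx
    exact h0 x hx
  rw [h1.fderiv_eq]
  simp

/-- uniform invertibility -/
theorem unif_inv {X : E → E} (hs : ContDiff ℝ ∞ X) {K : Set E} (hK : IsCompact K)
    (h0 : ∀ q, q ∉ K → X q = 0)
    (hinj : ∀ s ∈ Set.Icc (0 : ℝ) 1, ∀ q v, v - s • fderiv ℝ X q v = 0 → v = 0) :
    ∃ M : ℝ≥0, ∀ s ∈ Set.Icc (0 : ℝ) 1, ∀ q v, ‖v‖ ≤ M * ‖v - s • fderiv ℝ X q v‖ := by
  have hc : Continuous (fun z : ℝ × E × E => ‖z.2.2 - z.1 • fderiv ℝ X z.2.1 z.2.2‖) := by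
    have h1 : Continuous (fun z : ℝ × E × E => fderiv ℝ X z.2.1 z.2.2) :=
      ((hs.continuous_fderiv (by norm_num)).comp (continuous_fst.comp continuous_snd)).clm_apply
        (continuous_snd.comp continuous_snd)
    exact ((continuous_snd.comp continuous_snd).sub (continuous_fst.smul h1)).norm
  have hcomp : IsCompact (Set.Icc (0 : ℝ) 1 ×ˢ K ×ˢ Metric.sphere (0 : E) 1) :=
    isCompact_Icc.prod (hK.prod (isCompact_sphere _ _))
  obtain ⟨c, hc0, hcb⟩ : ∃ c : ℝ, 0 < c ∧ ∀ z ∈ Set.Icc (0 : ℝ) 1 ×ˢ K ×ˢ Metric.sphere (0 : E) 1,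
      c ≤ ‖z.2.2 - z.1 • fderiv ℝ X z.2.1 z.2.2‖ := by
    rcases (Set.Icc (0 : ℝ) 1 ×ˢ K ×ˢ Metric.sphere (0 : E) 1).eq_empty_or_nonempty with he | hne
    · exact ⟨1, one_pos, fun z hz => by rw [he] at hz; exact hz.elim⟩
    · obtain ⟨z, hz, hmin⟩ := hcomp.exists_isMinOn hne hc.continuousOn
      refine ⟨_, ?_, hmin⟩
      rw [norm_pos_iff]
      intro h
      have h1 := hinj z.1 hz.1 z.2.1 z.2.2 h
      have h2 := hz.2.2
      rw [h1] at h2
      simp at h2
  refine ⟨⟨max 1 c⁻¹, by positivity⟩, fun s hs' q v => ?_⟩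
  change ‖v‖ ≤ max 1 c⁻¹ * _
  by_cases hv : v = 0
  · subst hv
    simp
  have hv' : 0 < ‖v‖ := norm_pos_iff.2 hv
  by_cases hq : q ∈ K
  · have h1 := hcb (s, q, ‖v‖⁻¹ • v) ⟨hs', hq, by
      rw [mem_sphere_zero_iff_norm, norm_smul, norm_inv, norm_norm, inv_mul_cancel₀ hv'.ne']⟩
    have h2 : ‖v‖⁻¹ • v - s • fderiv ℝ X q (‖v‖⁻¹ • v) = ‖v‖⁻¹ • (v - s • fderiv ℝ X q v) := by
      rw [map_smul, smul_sub, smul_comm]
    rw [h2, norm_smul, norm_inv, norm_norm] at h1
    have h3 : c * ‖v‖ ≤ ‖v - s • fderiv ℝ X q v‖ := by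
      have := mul_le_mul_of_nonneg_right h1 hv'.le
      rwa [mul_right_comm, inv_mul_cancel₀ hv'.ne', one_mul] at this
    have h4 : ‖v‖ ≤ c⁻¹ * ‖v - s • fderiv ℝ X q v‖ := by
      rw [inv_mul_eq_div, le_div_iff₀ hc0, mul_comm]
      exact h3
    exact h4.trans (mul_le_mul_of_nonneg_right (le_max_right _ _) (norm_nonneg _))
  · rw [fderiv_out hK h0 hq]
    simp only [zero_apply, smul_zero, sub_zero]
    have h5 : (1 : ℝ) * ‖v‖ ≤ max 1 c⁻¹ * ‖v‖ :=
      mul_le_mul_of_nonneg_right (le_max_left _ _) hv'.le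
    rwa [one_mul] at h5

/-- the derivative of `q ↦ q - r X(q)` -/
theorem fderiv_sub_smul {X : E → E} (hs : ContDiff ℝ ∞ X) (r : ℝ) (q v : E) :
    fderiv ℝ (fun q => q - r • X q) q v = v - r • fderiv ℝ X q v := by
  have hd : DifferentiableAt ℝ X q := hs.contDiffAt.differentiableAt (by norm_num)
  have h1 : HasFDerivAt (fun q => q - r • X q)
      (ContinuousLinearMap.id ℝ E - r • fderiv ℝ X q) q :=
    (hasFDerivAt_id q).sub (hd.hasFDerivAt.const_smul r)
  rw [h1.fderiv]
  rfl

/-- **Continuity method.** -/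
theorem bij_of_inj {X : E → E} (hs : ContDiff ℝ ∞ X) {K : Set E} (hK : IsCompact K)
    (h0 : ∀ q, q ∉ K → X q = 0)
    (hinj : ∀ s ∈ Set.Icc (0 : ℝ) 1, ∀ q v, v - s • fderiv ℝ X q v = 0 → v = 0)
    (r : ℝ) (hr : r ∈ Set.Icc (0 : ℝ) 1) : Function.Bijective (fun q => q - r • X q) := by
  obtain ⟨M, hM⟩ := unif_inv hs hK h0 hinj
  -- bound on the derivative
  obtain ⟨L, hL⟩ : ∃ L : ℝ≥0, ∀ q, ‖fderiv ℝ X q‖ ≤ L := by
    have h1 : Continuous (fun q => ‖fderiv ℝ X q‖) := (hs.continuous_fderiv (by norm_num)).norm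
    obtain ⟨C, hC⟩ := hK.bddAbove_image h1.continuousOn
    refine ⟨⟨max 0 C, le_max_left _ _⟩, fun q => ?_⟩
    change _ ≤ max 0 C
    by_cases hq : q ∈ K
    · exact (hC ⟨q, hq, rfl⟩).trans (le_max_right _ _)
    · rw [fderiv_out hK h0 hq, norm_zero]
      exact le_max_left _ _
  -- one step
  have step : ∀ s ∈ Set.Icc (0 : ℝ) 1, Function.Bijective (fun q => q - s • X q) →
      ∀ s' ∈ Set.Icc (0 : ℝ) 1, |s' - s| * (L * M) ≤ 1 / 2 →
      Function.Bijective (fun q => q - s' • X q) := by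
    intro s hsI hb s' _ hss
    let f : E ≃ E := Equiv.ofBijective _ hb
    have hf : ContDiff ℝ ∞ f := contDiff_id.sub (contDiff_const.smul hs)
    have hfd : ∀ q v, fderiv ℝ f q v = v - s • fderiv ℝ X q v := fun q v =>
      fderiv_sub_smul hs s q v
    have hg : ContDiff ℝ ∞ f.symm := contDiff_symm_of f hf fun x v h => by
      rw [hfd] at h
      exact hinj s hsI x v h
    have hgn : ∀ p, ‖fderiv ℝ f.symm p‖ ≤ M := by
      intro p
      refine ContinuousLinearMap.opNorm_le_bound _ M.2 fun u => ?_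
      have h1 : HasFDerivAt f (fderiv ℝ f (f.symm p)) (f.symm p) :=
        (hf.contDiffAt.differentiableAt (by norm_num)).hasFDerivAt
      have h2 : HasFDerivAt f.symm (fderiv ℝ f.symm p) p :=
        (hg.contDiffAt.differentiableAt (by norm_num)).hasFDerivAt
      have h3 := h1.comp p h2
      have h4 : (f ∘ f.symm : E → E) = id := by
        funext x
        simp
      rw [h4] at h3
      have h5 : fderiv ℝ f (f.symm p) (fderiv ℝ f.symm p u) = u :=
        DFunLike.congr_fun (h3.unique (hasFDerivAt_id p)) u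
      have h6 := hM s hsI (f.symm p) (fderiv ℝ f.symm p u)
      rw [← hfd, h5] at h6
      exact h6
    have hlip : LipschitzWith (1 / 2) (fun p => (s' - s) • X (f.symm p)) := by
      refine lipschitzWith_of_nnnorm_fderiv_le (𝕜 := ℝ) (fun p => ?_) fun p => ?_
      · exact ((contDiff_const.smul (hs.comp hg)).contDiffAt.differentiableAt
          (n := ∞) (by norm_num))
      · have h1 : HasFDerivAt X (fderiv ℝ X (f.symm p)) (f.symm p) :=
          (hs.contDiffAt.differentiableAt (by norm_num)).hasFDerivAt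
        have h2 : HasFDerivAt f.symm (fderiv ℝ f.symm p) p :=
          (hg.contDiffAt.differentiableAt (by norm_num)).hasFDerivAt
        have h3 : HasFDerivAt (fun p => (s' - s) • X (f.symm p))
            ((s' - s) • (fderiv ℝ X (f.symm p)).comp (fderiv ℝ f.symm p)) p :=
          (h1.comp p h2).const_smul (s' - s)
        rw [h3.fderiv, ← NNReal.coe_le_coe, coe_nnnorm, norm_smul, Real.norm_eq_abs]
        have h4 : ‖(fderiv ℝ X (f.symm p)).comp (fderiv ℝ f.symm p)‖ ≤ L * M :=
          (ContinuousLinearMap.opNorm_comp_le _ _).trans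
            (mul_le_mul (hL _) (hgn p) (norm_nonneg _) L.2)
        calc |s' - s| * ‖(fderiv ℝ X (f.symm p)).comp (fderiv ℝ f.symm p)‖
            ≤ |s' - s| * (L * M) := mul_le_mul_of_nonneg_left h4 (abs_nonneg _)
          _ ≤ 1 / 2 := hss
          _ = ((1 / 2 : ℝ≥0) : ℝ) := by norm_num
    have hb' := bijective_sub (c := 1 / 2) (by norm_num) hlip
    have h1 : (fun q => q - s' • X q) = (fun p => p - (s' - s) • X (f.symm p)) ∘ f := by
      funext q
      change q - s' • X q = f q - (s' - s) • X (f.symm (f q))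
      rw [Equiv.symm_apply_apply]
      change q - s' • X q = (q - s • X q) - (s' - s) • X q
      module
    rw [h1]
    exact hb'.comp f.bijective
  -- finitely many steps
  obtain ⟨N, hN⟩ := exists_nat_gt (2 * ((L : ℝ) * M))
  have hN0 : 0 < (N : ℝ) := lt_of_le_of_lt (by positivity) hN
  have hk : ∀ k : ℕ, k ≤ N → Function.Bijective (fun q => q - ((k : ℝ) / N * r) • X q) := by
    intro k
    induction k with
    | zero =>
      intro _
      have : (fun q => q - (((0 : ℕ) : ℝ) / N * r) • X q) = id := by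
        funext q
        simp
      rw [this]
      exact Function.bijective_id
    | succ k ih =>
      intro hkN
      have hkN' : (k : ℝ) + 1 ≤ N := by exact_mod_cast hkN
      have e1 : ∀ j : ℝ, 0 ≤ j → j ≤ N → j / N * r ∈ Set.Icc (0 : ℝ) 1 := by
        intro j hj0 hjN
        have h1 : j / N ≤ 1 := (div_le_one hN0).2 hjN
        have h2 : 0 ≤ j / N := by positivity
        exact ⟨mul_nonneg h2 hr.1, by nlinarith [hr.1, hr.2]⟩
      refine step _ (e1 k (by positivity) (by linarith)) (ih (by omega)) _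
        (e1 _ (by positivity) (by push_cast; exact hkN')) ?_
      have h1 : ((k + 1 : ℕ) : ℝ) / N * r - (k : ℝ) / N * r = r / N := by
        push_cast
        field_simp
        ring
      rw [h1, abs_of_nonneg (div_nonneg hr.1 hN0.le)]
      have h2 : r / N ≤ 1 / N := div_le_div_of_nonneg_right hr.2 hN0.le
      have h3 : 1 / (N : ℝ) * (L * M) ≤ 1 / 2 := by
        rw [div_mul_eq_mul_div, one_mul, div_le_div_iff₀ hN0 two_pos]
        linarith
      exact (mul_le_mul_of_nonneg_right h2 (by positivity)).trans h3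
  have := hk N le_rfl
  rwa [div_self hN0.ne', one_mul] at this

end cont

end Pool.Agent.W71.EC
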