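import Mathlib
import Pool.Agent.W71.EC.Cont
import Pool.Agent.W71.EC.Count

set_option autoImplicit false

open scoped ContDiff Topology NNReal

namespace Pool.Agent.W71.EC

section big

variable {E : Type*} [NormedAddCommGroup E] [NormedSpace ℝ E] [FiniteDimensional ℝ E]

/-- the parameter -/
noncomputable def ta (t : ℝ) : ℝ := Real.smoothTransition t

theorem ta_smooth : ContDiff ℝ ∞ ta := Real.smoothTransition.contDiff

theorem ta_mem (t : ℝ) : ta t ∈ Set.Icc (0 : ℝ) 1 :=
  ⟨Real.smoothTransition.nonneg t, Real.smoothTransition.le_one t⟩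

theorem ta_zero : ta 0 = 0 := Real.smoothTransition.zero

theorem ta_one : ta 1 = 1 := Real.smoothTransition.one

/-- the hypotheses on `Y` -/
structure Good (Y : E → E) (K : Set E) : Prop where
  smooth : ContDiff ℝ ∞ Y
  compact : IsCompact K
  out : ∀ q, q ∉ K → Y q = 0
  inj : ∀ s ∈ Set.Icc (0 : ℝ) 1, ∀ q v, v - s • fderiv ℝ Y q v = 0 → v = 0

/-- `q ↦ q - r Y(q)` as a bijection -/
noncomputable def per {Y : E → E} {K : Set E} (h : Good Y K) (r : ℝ)
    (hr : r ∈ Set.Icc (0 : ℝ) 1) : E ≃ E :=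
  Equiv.ofBijective (fun q => q - r • Y q)
    (bij_of_inj h.smooth h.compact h.out h.inj r hr)

theorem per_apply {Y : E → E} {K : Set E} (h : Good Y K) (r : ℝ)
    (hr : r ∈ Set.Icc (0 : ℝ) 1) (q : E) : per h r hr q = q - r • Y q := rfl

theorem per_smooth {Y : E → E} {K : Set E} (h : Good Y K) (r : ℝ)
    (hr : r ∈ Set.Icc (0 : ℝ) 1) : ContDiff ℝ ∞ (per h r hr) :=
  contDiff_id.sub (contDiff_const.smul h.smooth)

theorem per_fderiv {Y : E → E} {K : Set E} (h : Good Y K) (r : ℝ)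
    (hr : r ∈ Set.Icc (0 : ℝ) 1) (q v : E) :
    fderiv ℝ (per h r hr) q v = v - r • fderiv ℝ Y q v :=
  fderiv_sub_smul h.smooth r q v

theorem per_symm_smooth {Y : E → E} {K : Set E} (h : Good Y K) (r : ℝ)
    (hr : r ∈ Set.Icc (0 : ℝ) 1) : ContDiff ℝ ∞ (per h r hr).symm := by
  refine contDiff_symm_of _ (per_smooth h r hr) fun q v hv => ?_
  rw [per_fderiv] at hv
  exact h.inj r hr q v hv

theorem per_symm_out {Y : E → E} {K : Set E} (h : Good Y K) (r : ℝ)
    (hr : r ∈ Set.Icc (0 : ℝ) 1) (q : E) (hq : q ∉ K) : (per h r hr).symm q = q := by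
  rw [Equiv.symm_apply_eq, per_apply, h.out q hq, smul_zero, sub_zero]

/-- all the maps `q ↦ q - τ(t) Y(q)` together -/
noncomputable def bigPer {Y : E → E} {K : Set E} (h : Good Y K) : ℝ × E ≃ ℝ × E where
  toFun z := (z.1, per h (ta z.1) (ta_mem z.1) z.2)
  invFun z := (z.1, (per h (ta z.1) (ta_mem z.1)).symm z.2)
  left_inv z := by simp
  right_inv z := by simp

theorem bigPer_smooth {Y : E → E} {K : Set E} (h : Good Y K) : ContDiff ℝ ∞ (bigPer h) := by
  have : (bigPer h : ℝ × E → ℝ × E) = fun z => (z.1, z.2 - ta z.1 • Y z.2) := rfl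
  rw [this]
  exact contDiff_fst.prodMk (contDiff_snd.sub ((ta_smooth.comp contDiff_fst).smul
    (h.smooth.comp contDiff_snd)))

theorem bigPer_symm_smooth {Y : E → E} {K : Set E} (h : Good Y K) :
    ContDiff ℝ ∞ (bigPer h).symm := by
  refine contDiff_symm_of _ (bigPer_smooth h) ?_
  rintro ⟨t, q⟩ ⟨a, v⟩ hz
  have hfun : (bigPer h : ℝ × E → ℝ × E) = fun z => (z.1, z.2 - ta z.1 • Y z.2) := rfl
  have hdX : HasFDerivAt Y (fderiv ℝ Y q) q :=
    (h.smooth.contDiffAt.differentiableAt (by norm_num)).hasFDerivAt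
  have hds : HasFDerivAt ta (fderiv ℝ ta t) t :=
    (ta_smooth.contDiffAt.differentiableAt (by norm_num)).hasFDerivAt
  have h1 : HasFDerivAt (fun z : ℝ × E => Y z.2)
      ((fderiv ℝ Y q).comp (ContinuousLinearMap.snd ℝ ℝ E)) (t, q) :=
    HasFDerivAt.comp (t, q) (g := Y) (f := Prod.snd) hdX hasFDerivAt_snd
  have h2 : HasFDerivAt (fun z : ℝ × E => ta z.1)
      ((fderiv ℝ ta t).comp (ContinuousLinearMap.fst ℝ ℝ E)) (t, q) :=
    HasFDerivAt.comp (t, q) (g := ta) (f := Prod.fst) hds hasFDerivAt_fst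
  have h3 := (hasFDerivAt_fst (𝕜 := ℝ) (p := (t, q))).prodMk
    ((hasFDerivAt_snd (𝕜 := ℝ) (p := (t, q))).sub (h2.smul h1))
  rw [hfun] at hz
  rw [HasFDerivAt.fderiv (f := fun z : ℝ × E => (z.1, z.2 - ta z.1 • Y z.2)) h3] at hz
  have ha : a = 0 := by simpa using congrArg Prod.fst hz
  have hv := congrArg Prod.snd hz
  subst ha
  have hv' : v - ta t • fderiv ℝ Y q v = 0 := by simpa using hv
  exact Prod.ext rfl (h.inj (ta t) (ta_mem t) q v hv')

theorem fderiv_lin {X : E → E} (hs : ContDiff ℝ ∞ X) (A : E →L[ℝ] E) (q v : E) :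
    fderiv ℝ (fun q => A (X q)) q v = A (fderiv ℝ X q v) := by
  have hd : DifferentiableAt ℝ X q := hs.contDiffAt.differentiableAt (by norm_num)
  have h1 : HasFDerivAt (fun q => A (X q)) (A.comp (fderiv ℝ X q)) q :=
    A.hasFDerivAt.comp q hd.hasFDerivAt
  rw [h1.fderiv]
  rfl

end big

section gen

variable {n : ℕ}

theorem omega_nondeg {u : R2 n} (h : ∀ v, omega u v = 0) : u = 0 := by
  have h1 := h (-u.2, u.1)
  unfold omega at h1
  have h2 : ∀ i, u.1 i * u.1 i + u.2 i * u.2 i = 0 := by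
    have h3 : ∑ i, (u.1 i * u.1 i + u.2 i * u.2 i) = 0 := by
      rw [← h1]
      refine Finset.sum_congr rfl fun i _ => ?_
      simp only [Pi.neg_apply]
      ring
    have h4 := (Finset.sum_eq_zero_iff_of_nonneg (fun i _ => by
      nlinarith [mul_self_nonneg (u.1 i), mul_self_nonneg (u.2 i)])).1 h3
    exact fun i => h4 i (Finset.mem_univ i)
  ext i
  · have := h2 i
    have h3 : u.1 i * u.1 i = 0 := by nlinarith [mul_self_nonneg (u.1 i), mul_self_nonneg (u.2 i)]
    simpa using h3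
  · have := h2 i
    have h3 : u.2 i * u.2 i = 0 := by nlinarith [mul_self_nonneg (u.1 i), mul_self_nonneg (u.2 i)]
    simpa using h3

/-- elements of the symplectic Lie algebra -/
def InSp (S : R2 n →L[ℝ] R2 n) : Prop := ∀ u v, omega (S u) v + omega u (S v) = 0

/-- `R = (1 + S) / 2` -/
noncomputable def RR (S : R2 n →L[ℝ] R2 n) : R2 n →L[ℝ] R2 n :=
  (1 / 2 : ℝ) • (ContinuousLinearMap.id ℝ (R2 n) + S)

theorem RR_apply (S : R2 n →L[ℝ] R2 n) (v : R2 n) : RR S v = (1 / 2 : ℝ) • (v + S v) := rfl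

theorem RR_sp {S : R2 n →L[ℝ] R2 n} (hS : InSp S) (a b : R2 n) :
    omega a (RR S b) + omega (RR S a) b = omega a b := by
  have := hS a b
  rw [RR_apply, RR_apply, omega_smul_left, omega_smul_right, omega_add_left, omega_add_right]
  linarith

/-- the other map -/
noncomputable def RQ (S : R2 n →L[ℝ] R2 n) : R2 n →L[ℝ] R2 n :=
  RR S - ContinuousLinearMap.id ℝ (R2 n)

theorem RQ_apply (S : R2 n →L[ℝ] R2 n) (v : R2 n) : RQ S v = RR S v - v := rfl

/-- the basic identity -/
theorem ident {S : R2 n →L[ℝ] R2 n} (hS : InSp S) (s : ℝ) (u v a b : R2 n)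
    (h : omega a v + omega u b = 0) :
    omega (u - s • RQ S a) (v - s • RQ S b) = omega (u - s • RR S a) (v - s • RR S b) := by
  have e := RR_sp hS a b
  simp only [RQ_apply, omega_sub_left, omega_sub_right, omega_smul_left, omega_smul_right]
  linear_combination s * h - s ^ 2 * e

theorem goodQ {S : R2 n →L[ℝ] R2 n} (hS : InSp S) {X : R2 n → R2 n} {K : Set (R2 n)}
    (hs : ContDiff ℝ ∞ X) (hsp : IsSp X) (hK : IsCompact K) (h0 : ∀ q, q ∉ K → X q = 0)
    (hP : Good (fun q => RR S (X q)) K) : Good (fun q => RQ S (X q)) K where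
  smooth := (RQ S).contDiff.comp hs
  compact := hK
  out q hq := by rw [h0 q hq, map_zero]
  inj s hsI q v hv := by
    rw [fderiv_lin hs] at hv
    have h1 : ∀ w, omega (v - s • RR S (fderiv ℝ X q v)) (w - s • RR S (fderiv ℝ X q w)) = 0 := by
      intro w
      rw [← ident hS s v w _ _ (hsp q v w), hv]
      have := omega_smul_left (0 : ℝ) (0 : R2 n) (w - s • RQ S (fderiv ℝ X q w))
      rw [zero_smul, zero_mul] at this
      exact this
    have hinj : Function.Injective (fun w => w - s • RR S (fderiv ℝ X q w)) := by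
      have h2 : ∀ w, w - s • RR S (fderiv ℝ X q w) =
          (LinearMap.id - s • ((RR S).comp (fderiv ℝ X q) : R2 n →ₗ[ℝ] R2 n) :
            R2 n →ₗ[ℝ] R2 n) w := fun w => rfl
      intro w w' hww
      have h3 : (w - w') - s • fderiv ℝ (fun q => RR S (X q)) q (w - w') = 0 := by
        rw [fderiv_lin hs, map_sub, map_sub, smul_sub]
        have h4 : w - s • RR S (fderiv ℝ X q w) = w' - s • RR S (fderiv ℝ X q w') := hww
        rw [sub_sub_sub_comm, h4, sub_self]
      exact sub_eq_zero.1 (hP.inj s hsI q (w - w') h3)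
    have hsurj : Function.Surjective (fun w => w - s • RR S (fderiv ℝ X q w)) :=
      (LinearMap.injective_iff_surjective (f := (LinearMap.id - s •
        ((RR S).comp (fderiv ℝ X q) : R2 n →ₗ[ℝ] R2 n) : R2 n →ₗ[ℝ] R2 n))).1 hinj
    have h5 : v - s • RR S (fderiv ℝ X q v) = 0 := by
      refine omega_nondeg fun w' => ?_
      obtain ⟨w, rfl⟩ := hsurj w'
      exact h1 w
    refine hP.inj s hsI q v ?_
    rw [fderiv_lin hs]
    exact h5

/-- data of the generalized Cayley transform -/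
structure CD (S : R2 n →L[ℝ] R2 n) (X : R2 n → R2 n) (K : Set (R2 n)) : Prop where
  sp : InSp S
  smooth : ContDiff ℝ ∞ X
  isSp : IsSp X
  compact : IsCompact K
  out : ∀ q, q ∉ K → X q = 0
  good : Good (fun q => RR S (X q)) K

theorem CD.goodQ {S : R2 n →L[ℝ] R2 n} {X : R2 n → R2 n} {K : Set (R2 n)} (h : CD S X K) :
    Good (fun q => RQ S (X q)) K :=
  Pool.Agent.W71.EC.goodQ h.sp h.smooth h.isSp h.compact h.out h.good

/-- the generalized Cayley transform of `τ(t) X` -/
noncomputable def cay {S : R2 n →L[ℝ] R2 n} {X : R2 n → R2 n} {K : Set (R2 n)}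
    (h : CD S X K) (t : ℝ) : SympCt n where
  toEquiv := (per h.good (ta t) (ta_mem t)).symm.trans (per h.goodQ (ta t) (ta_mem t))
  smooth := (per_smooth h.goodQ (ta t) (ta_mem t)).comp (per_symm_smooth h.good (ta t) (ta_mem t))
  smooth_symm := (per_smooth h.good (ta t) (ta_mem t)).comp
    (per_symm_smooth h.goodQ (ta t) (ta_mem t))
  symplectic p u v := by
    set P := per h.good (ta t) (ta_mem t) with hP
    set Q := per h.goodQ (ta t) (ta_mem t) with hQ
    have hPs : ContDiff ℝ ∞ P := per_smooth _ _ _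
    have hPi : ContDiff ℝ ∞ P.symm := per_symm_smooth _ _ _
    have hQs : ContDiff ℝ ∞ Q := per_smooth _ _ _
    have h1 : HasFDerivAt Q (fderiv ℝ Q (P.symm p)) (P.symm p) :=
      (hQs.contDiffAt.differentiableAt (by norm_num)).hasFDerivAt
    have h2 : HasFDerivAt P.symm (fderiv ℝ P.symm p) p :=
      (hPi.contDiffAt.differentiableAt (by norm_num)).hasFDerivAt
    have h3 := h1.comp p h2
    have h4 : ((P.symm.trans Q : R2 n ≃ R2 n) : R2 n → R2 n) = Q ∘ P.symm := rfl
    rw [h4, h3.fderiv]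
    simp only [ContinuousLinearMap.comp_apply]
    have hu := inv_left hPs hPi p u
    have hv := inv_left hPs hPi p v
    conv_rhs => rw [← hu, ← hv]
    rw [hP, hQ, per_fderiv, per_fderiv, per_fderiv, per_fderiv, fderiv_lin h.smooth,
      fderiv_lin h.smooth, fderiv_lin h.smooth, fderiv_lin h.smooth]
    exact ident h.sp _ _ _ _ _ (h.isSp _ _ _)
  compact_support := by
    refine ⟨K, h.compact, fun p hp => ?_⟩
    rw [Equiv.trans_apply, per_symm_out h.good _ _ p hp, per_apply, h.out p hp, map_zero,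
      smul_zero, sub_zero]

theorem cay_supp {S : R2 n →L[ℝ] R2 n} {X : R2 n → R2 n} {K : Set (R2 n)}
    (h : CD S X K) (t : ℝ) : cay h t ∈ supportedIn K := by
  intro p hp
  change (per h.good (ta t) (ta_mem t)).symm.trans (per h.goodQ (ta t) (ta_mem t)) p = p
  rw [Equiv.trans_apply, per_symm_out h.good _ _ p hp, per_apply, h.out p hp, map_zero,
      smul_zero, sub_zero]

theorem cay_family {S : R2 n →L[ℝ] R2 n} {X : R2 n → R2 n} {K : Set (R2 n)}
    (h : CD S X K) : ContDiff ℝ ∞ (fun z : ℝ × R2 n => (cay h z.1).toEquiv z.2) := by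
  have h1 : (fun z : ℝ × R2 n => (cay h z.1).toEquiv z.2) =
      fun z => ((bigPer h.good).symm z).2 -
        ta z.1 • RQ S (X ((bigPer h.good).symm z).2) := by
    funext z
    rfl
  rw [h1]
  have h2 : ContDiff ℝ ∞ (fun z : ℝ × R2 n => ((bigPer h.good).symm z).2) :=
    contDiff_snd.comp (bigPer_symm_smooth h.good)
  exact h2.sub ((ta_smooth.comp contDiff_fst).smul ((RQ S).contDiff.comp (h.smooth.comp h2)))

end gen

end Pool.Agent.W71.EC
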