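import Mathlib
import Pool.Agent.W71.EC.Gen

set_option autoImplicit false

open scoped ContDiff Topology NNReal

namespace Pool.Agent.W71.EC

variable {n : ℕ}

theorem hasFD (φ : SympCt n) (p : R2 n) : HasFDerivAt φ.toEquiv (fderiv ℝ φ.toEquiv p) p :=
  (φ.smooth.contDiffAt.differentiableAt (by norm_num)).hasFDerivAt

/-- a path of symplectomorphisms composed with a fixed one on the right -/
theorem continuous_comp_right (K : Set (R2 n)) (hK : IsCompact K) (γ : ℝ → SympCt n)
    (hs : ContDiff ℝ ∞ (fun z : ℝ × R2 n => (γ z.1).toEquiv z.2))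
    (hγ : ∀ t, γ t ∈ supportedIn K) (ψ : SympCt n) (hψ : ψ ∈ supportedIn K) :
    Continuous (fun t => comp (γ t) ψ) := by
  refine continuous_family K hK _ ?_ (fun t => comp_supp (hγ t) hψ)
  have h1 : (fun z : ℝ × R2 n => (comp (γ z.1) ψ).toEquiv z.2) =
      (fun z : ℝ × R2 n => (γ z.1).toEquiv z.2) ∘ (fun z : ℝ × R2 n => (z.1, ψ.toEquiv z.2)) := rfl
  rw [h1]
  exact hs.comp (contDiff_fst.prodMk (ψ.smooth.comp contDiff_snd))

theorem continuous_comp_left (K : Set (R2 n)) (hK : IsCompact K) (γ : ℝ → SympCt n)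
    (hs : ContDiff ℝ ∞ (fun z : ℝ × R2 n => (γ z.1).toEquiv z.2))
    (hγ : ∀ t, γ t ∈ supportedIn K) (ψ : SympCt n) (hψ : ψ ∈ supportedIn K) :
    Continuous (fun t => comp ψ (γ t)) := by
  refine continuous_family K hK _ ?_ (fun t => comp_supp hψ (hγ t))
  exact ψ.smooth.comp hs

theorem joined_of_path (γ : ℝ → SympCt n) (h : Continuous γ) : Joined (γ 0) (γ 1) := by
  refine ⟨⟨⟨fun t => γ (t : ℝ), h.comp continuous_subtype_val⟩, ?_, ?_⟩⟩
  · simp
  · simp

/-- **The criterion**, with a fixed factor. -/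
theorem joined_of_crit (K : Set (R2 n)) (hK : IsCompact K) (θ ψ : SympCt n)
    (hθ : θ ∈ supportedIn K) (hψ : ψ ∈ supportedIn K) (S : R2 n →L[ℝ] R2 n) (hS : InSp S)
    (hc : ∀ p, ∀ s ∈ Set.Icc (0 : ℝ) 1, ∀ v,
      v + s • RR S (fderiv ℝ θ.toEquiv p v - v) = 0 → v = 0) :
    Joined ψ (comp θ ψ) := by
  -- the midpoint map
  have hYs : ContDiff ℝ ∞ (fun p => p - θ.toEquiv p) := contDiff_id.sub θ.smooth
  have hYd : ∀ p v, fderiv ℝ (fun p => p - θ.toEquiv p) p v = v - fderiv ℝ θ.toEquiv p v := by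
    intro p v
    have h1 : HasFDerivAt (fun p => p - θ.toEquiv p)
      (ContinuousLinearMap.id ℝ (R2 n) - fderiv ℝ θ.toEquiv p) p :=
      (hasFDerivAt_id p).sub (hasFD θ p)
    rw [h1.fderiv]
    rfl
  have hm : Good (fun p => RR S ((fun p => p - θ.toEquiv p) p)) K :=
    { smooth := (RR S).contDiff.comp hYs
      compact := hK
      out := fun q hq => by
        change RR S (q - θ.toEquiv q) = 0
        rw [hθ q hq, sub_self, map_zero]
      inj := fun s hsI q v hv => by
        rw [fderiv_lin hYs, hYd] at hv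
        refine hc q s hsI v ?_
        rw [← hv, map_sub, map_sub]
        module }
  have h1I : (1 : ℝ) ∈ Set.Icc (0 : ℝ) 1 := ⟨zero_le_one, le_rfl⟩
  set m := per hm 1 h1I with hmdef
  have hms : ContDiff ℝ ∞ m := per_smooth _ _ _
  have hmi : ContDiff ℝ ∞ m.symm := per_symm_smooth _ _ _
  have hmp : ∀ p, m p = p + RR S (θ.toEquiv p - p) := by
    intro p
    rw [hmdef, per_apply, one_smul]
    change p - RR S (p - θ.toEquiv p) = _
    rw [← neg_sub (θ.toEquiv p) p, map_neg, sub_neg_eq_add]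
  have hmd : ∀ p v, fderiv ℝ m p v = v + RR S (fderiv ℝ θ.toEquiv p v - v) := by
    intro p v
    rw [hmdef, per_fderiv, fderiv_lin hYs, hYd, one_smul, ← neg_sub (fderiv ℝ θ.toEquiv p v) v,
      map_neg, sub_neg_eq_add]
  let X : R2 n → R2 n := fun q => θ.toEquiv (m.symm q) - m.symm q
  have hXs : ContDiff ℝ ∞ X := (θ.smooth.comp hmi).sub hmi
  have hXm : ∀ p, X (m p) = θ.toEquiv p - p := by
    intro p
    change θ.toEquiv (m.symm (m p)) - m.symm (m p) = _
    rw [Equiv.symm_apply_apply]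
  have hX0 : ∀ q, q ∉ K → X q = 0 := by
    intro q hq
    change θ.toEquiv (m.symm q) - m.symm q = 0
    have e1 : m.symm q = q := per_symm_out hm 1 h1I q hq
    rw [e1, hθ q hq, sub_self]
  have hXd : ∀ p w, fderiv ℝ X (m p) (fderiv ℝ m p w) = fderiv ℝ θ.toEquiv p w - w := by
    intro p w
    have h1 : HasFDerivAt X (fderiv ℝ X (m p)) (m p) :=
      (hXs.contDiffAt.differentiableAt (by norm_num)).hasFDerivAt
    have h2 : HasFDerivAt m (fderiv ℝ m p) p :=
      (hms.contDiffAt.differentiableAt (by norm_num)).hasFDerivAt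
    have h3 := h1.comp p h2
    have h4 : (X ∘ m : R2 n → R2 n) = fun p => θ.toEquiv p - p := by
      funext x
      exact hXm x
    rw [h4] at h3
    have h5 := h3.unique ((hasFD θ p).sub (hasFDerivAt_id p))
    exact DFunLike.congr_fun h5 w
  have hsur : ∀ p u, ∃ u', fderiv ℝ m p u' = u := by
    intro p u
    have hu := inv_left hms hmi (m p) u
    rw [Equiv.symm_apply_apply] at hu
    exact ⟨_, hu⟩
  have hXsp : IsSp X := by
    intro q u v
    obtain ⟨p, rfl⟩ := m.surjective q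
    obtain ⟨u', rfl⟩ := hsur p u
    obtain ⟨v', rfl⟩ := hsur p v
    rw [hXd, hXd, hmd, hmd]
    have e := θ.symplectic p u' v'
    have e2 := RR_sp hS (fderiv ℝ θ.toEquiv p u' - u') (fderiv ℝ θ.toEquiv p v' - v')
    have e3 : omega (fderiv ℝ θ.toEquiv p u' - u') (fderiv ℝ θ.toEquiv p v' - v') =
        omega (fderiv ℝ θ.toEquiv p u') (fderiv ℝ θ.toEquiv p v')
        - omega (fderiv ℝ θ.toEquiv p u') v' - omega u' (fderiv ℝ θ.toEquiv p v')
        + omega u' v' := by
      simp only [omega_sub_left, omega_sub_right]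
      ring
    rw [omega_add_right, omega_add_left]
    have e4 : omega (fderiv ℝ θ.toEquiv p u' - u') v' =
      omega (fderiv ℝ θ.toEquiv p u') v' - omega u' v' := omega_sub_left _ _ _
    have e5 : omega u' (fderiv ℝ θ.toEquiv p v' - v') =
      omega u' (fderiv ℝ θ.toEquiv p v') - omega u' v' := omega_sub_right _ _ _
    rw [e4, e5]
    linear_combination e2 + e3 + e
  have hgood : Good (fun q => RR S (X q)) K :=
    { smooth := (RR S).contDiff.comp hXs
      compact := hK
      out := fun q hq => by rw [hX0 q hq, map_zero]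
      inj := fun s hsI q v hv => by
        rw [fderiv_lin hXs] at hv
        obtain ⟨p, rfl⟩ := m.surjective q
        obtain ⟨v', rfl⟩ := hsur p v
        rw [hXd, hmd] at hv
        have h1 : v' = 0 := by
          refine hc p (1 - s) ⟨by linarith [hsI.2], by linarith [hsI.1]⟩ v' ?_
          rw [← hv]
          module
        rw [h1, map_zero] }
  have hCD : CD S X K := ⟨hS, hXs, hXsp, hK, hX0, hgood⟩
  have hcont := continuous_comp_right K hK (cay hCD) (cay_family hCD) (cay_supp hCD) ψ hψ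
  have e0 : comp (cay hCD 0) ψ = ψ := by
    refine SympCt.ext' fun p => ?_
    change (per hCD.goodQ (ta 0) (ta_mem 0)) ((per hCD.good (ta 0) (ta_mem 0)).symm
      (ψ.toEquiv p)) = _
    have : (per hCD.good (ta 0) (ta_mem 0)).symm (ψ.toEquiv p) = ψ.toEquiv p := by
      rw [Equiv.symm_apply_eq, per_apply, ta_zero, zero_smul, sub_zero]
    rw [this, per_apply, ta_zero, zero_smul, sub_zero]
  have e1 : comp (cay hCD 1) ψ = comp θ ψ := by
    refine SympCt.ext' fun p => ?_
    change (per hCD.goodQ (ta 1) (ta_mem 1)) ((per hCD.good (ta 1) (ta_mem 1)).symm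
      (ψ.toEquiv p)) = θ.toEquiv (ψ.toEquiv p)
    set x := ψ.toEquiv p
    have : (per hCD.good (ta 1) (ta_mem 1)).symm x = m x := by
      rw [Equiv.symm_apply_eq, per_apply, ta_one, one_smul, hXm, hmp, add_sub_cancel_right]
    rw [this, per_apply, ta_one, one_smul, hXm, RQ_apply, hmp]
    abel
  have := joined_of_path _ hcont
  rwa [e0, e1] at this

/-- a common compact set containing the supports -/
theorem exists_common (φ ψ : SympCt n) : ∃ K : Set (R2 n), IsCompact K ∧
    φ ∈ supportedIn K ∧ ψ ∈ supportedIn K := by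
  obtain ⟨K, hK, h1⟩ := φ.compact_support
  obtain ⟨L, hL, h2⟩ := ψ.compact_support
  exact ⟨K ∪ L, hK.union hL, fun p hp => h1 p (fun h => hp (Or.inl h)),
    fun p hp => h2 p (fun h => hp (Or.inr h))⟩

theorem comp_inv_comp (φ ψ : SympCt n) : comp (comp φ (inv ψ)) ψ = φ := by
  refine SympCt.ext' fun p => ?_
  change φ.toEquiv (ψ.toEquiv.symm (ψ.toEquiv p)) = φ.toEquiv p
  rw [Equiv.symm_apply_apply]

/-- **The relative criterion.** -/
theorem joined_rel (φ ψ : SympCt n) (S : R2 n →L[ℝ] R2 n) (hS : InSp S)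
    (hc : ∀ p, ∀ s ∈ Set.Icc (0 : ℝ) 1, ∀ v, v ≠ 0 →
      fderiv ℝ ψ.toEquiv p v + s • RR S (fderiv ℝ φ.toEquiv p v - fderiv ℝ ψ.toEquiv p v) ≠ 0) :
    Joined ψ φ := by
  obtain ⟨K, hK, h1, h2⟩ := exists_common φ ψ
  have h3 := joined_of_crit K hK (comp φ (inv ψ)) ψ (comp_supp h1 (inv_supp h2)) h2 S hS ?_
  · rwa [comp_inv_comp] at h3
  · intro p s hs v hv
    obtain ⟨x, rfl⟩ := ψ.toEquiv.surjective p
    -- the derivative of `φ ψ⁻¹` at `ψ x`
    have e1 : HasFDerivAt φ.toEquiv (fderiv ℝ φ.toEquiv (ψ.toEquiv.symm (ψ.toEquiv x)))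
        (ψ.toEquiv.symm (ψ.toEquiv x)) := hasFD φ _
    have e2 : HasFDerivAt ψ.toEquiv.symm (fderiv ℝ ψ.toEquiv.symm (ψ.toEquiv x))
        (ψ.toEquiv x) :=
      (ψ.smooth_symm.contDiffAt.differentiableAt (by norm_num)).hasFDerivAt
    have e3 := e1.comp (ψ.toEquiv x) e2
    have e4 : (((comp φ (inv ψ)).toEquiv : R2 n ≃ R2 n) : R2 n → R2 n) =
      φ.toEquiv ∘ ψ.toEquiv.symm := rfl
    rw [e4, e3.fderiv, ContinuousLinearMap.comp_apply] at hv
    have e5 := inv_left ψ.smooth ψ.smooth_symm (ψ.toEquiv x) v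
    rw [Equiv.symm_apply_apply] at e5 hv
    set w := fderiv ℝ ψ.toEquiv.symm (ψ.toEquiv x) v
    by_contra hne
    have hw : w ≠ 0 := by
      intro hw
      rw [hw, map_zero] at e5
      exact hne e5.symm
    refine hc x s hs w hw ?_
    rw [e5]
    exact hv

theorem inSp_zero : InSp (0 : R2 n →L[ℝ] R2 n) := by
  intro u v
  have h1 := omega_smul_left (0 : ℝ) (0 : R2 n) v
  have h2 := omega_smul_right (0 : ℝ) u (0 : R2 n)
  rw [zero_smul, zero_mul] at h1 h2
  change omega 0 v + omega u 0 = 0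
  rw [h1, h2, add_zero]

/-- If the differentials of two elements never map a vector to opposite directions, the elements are
isotopic. -/
theorem joined_of_not_opposite (φ ψ : SympCt n)
    (hc : ∀ p v, v ≠ 0 → ∀ c : ℝ, 1 ≤ c →
      fderiv ℝ φ.toEquiv p v ≠ -(c • fderiv ℝ ψ.toEquiv p v)) : Joined ψ φ := by
  refine joined_rel φ ψ 0 inSp_zero fun p s hs v hv h => ?_
  rw [RR_apply] at h
  have h1 : (1 - s / 2) • fderiv ℝ ψ.toEquiv p v + (s / 2) • fderiv ℝ φ.toEquiv p v = 0 := by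
    rw [← h]
    simp only [zero_apply, add_zero]
    module
  rcases hs.1.eq_or_lt with h0 | h0
  · rw [← h0] at h1
    have h2 : fderiv ℝ ψ.toEquiv p v = 0 := by simpa using h1
    have h3 := inv_left (f := ψ.toEquiv.symm) ψ.smooth_symm ψ.smooth p v
    rw [Equiv.symm_symm] at h3
    rw [h2, map_zero] at h3
    exact hv h3.symm
  · refine hc p v hv ((1 - s / 2) / (s / 2)) ?_ ?_
    · rw [le_div_iff₀ (by positivity)]
      linarith [hs.2]
    · have h2 : (s / 2) • fderiv ℝ φ.toEquiv p v = -((1 - s / 2) • fderiv ℝ ψ.toEquiv p v) :=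
        eq_neg_of_add_eq_zero_right h1
      have h3 : (s / 2) ≠ 0 := by positivity
      have h4 : fderiv ℝ φ.toEquiv p v = (s / 2)⁻¹ • ((s / 2) • fderiv ℝ φ.toEquiv p v) := by
        rw [smul_smul, inv_mul_cancel₀ h3, one_smul]
      rw [h2, smul_neg, smul_smul] at h4
      rw [div_eq_inv_mul]
      exact h4

end Pool.Agent.W71.EC
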