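import Mathlib
import Pool.Agent.W71.EC.Crit

set_option autoImplicit false

open scoped ContDiff Topology NNReal ENNReal
open MeasureTheory

namespace Pool.Agent.W71.EC

variable {n : ℕ}

/-- the homothety `x ↦ a + l x` -/
noncomputable def homo (a : R2 n) (l : ℝ) (hl : l ≠ 0) : R2 n ≃ R2 n where
  toFun x := a + l • x
  invFun y := l⁻¹ • (y - a)
  left_inv x := by
    simp only [add_sub_cancel_left]
    rw [smul_smul, inv_mul_cancel₀ hl, one_smul]
  right_inv y := by
    simp only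
    rw [smul_smul, mul_inv_cancel₀ hl, one_smul]
    abel

theorem homo_smooth (a : R2 n) (l : ℝ) (hl : l ≠ 0) : ContDiff ℝ ∞ (homo a l hl) :=
  contDiff_const.add (contDiff_id.const_smul l)

theorem homo_symm_smooth (a : R2 n) (l : ℝ) (hl : l ≠ 0) : ContDiff ℝ ∞ (homo a l hl).symm :=
  (contDiff_id.sub contDiff_const).const_smul l⁻¹

theorem homo_hasFD (a : R2 n) (l : ℝ) (hl : l ≠ 0) (p : R2 n) :
    HasFDerivAt (homo a l hl) (l • ContinuousLinearMap.id ℝ (R2 n)) p :=
  ((hasFDerivAt_id p).const_smul l).const_add a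

theorem homo_symm_hasFD (a : R2 n) (l : ℝ) (hl : l ≠ 0) (p : R2 n) :
    HasFDerivAt (homo a l hl).symm (l⁻¹ • ContinuousLinearMap.id ℝ (R2 n)) p :=
  ((hasFDerivAt_id p).sub_const a).const_smul l⁻¹

/-- the derivative of the conjugate -/
theorem conj_fderiv (φ : SympCt n) (a : R2 n) (l : ℝ) (hl : l ≠ 0) (p : R2 n) :
    fderiv ℝ ((homo a l hl).symm.trans (φ.toEquiv.trans (homo a l hl))) p =
      fderiv ℝ φ.toEquiv (l⁻¹ • (p - a)) := by
  have h1 := (homo_hasFD a l hl (φ.toEquiv ((homo a l hl).symm p))).comp p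
    ((hasFD φ ((homo a l hl).symm p)).comp p (homo_symm_hasFD a l hl p))
  have h2 : (((homo a l hl).symm.trans (φ.toEquiv.trans (homo a l hl)) : R2 n ≃ R2 n) :
      R2 n → R2 n) = homo a l hl ∘ (φ.toEquiv ∘ (homo a l hl).symm) := rfl
  rw [h2, h1.fderiv]
  refine ContinuousLinearMap.ext fun v => ?_
  change l • fderiv ℝ φ.toEquiv ((homo a l hl).symm p) (l⁻¹ • v) = _
  rw [map_smul, smul_smul, mul_inv_cancel₀ hl, one_smul]
  rfl

/-- the conjugate of `φ` by the homothety -/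
noncomputable def conjH (φ : SympCt n) (a : R2 n) (l : ℝ) (hl : l ≠ 0) : SympCt n where
  toEquiv := (homo a l hl).symm.trans (φ.toEquiv.trans (homo a l hl))
  smooth := (homo_smooth a l hl).comp (φ.smooth.comp (homo_symm_smooth a l hl))
  smooth_symm := (homo_smooth a l hl).comp (φ.smooth_symm.comp (homo_symm_smooth a l hl))
  symplectic p u v := by
    rw [conj_fderiv, φ.symplectic]
  compact_support := by
    obtain ⟨K, hK, h1⟩ := φ.compact_support
    refine ⟨homo a l hl '' K, hK.image (homo_smooth a l hl).continuous, fun p hp => ?_⟩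
    have h2 : (homo a l hl).symm p ∉ K := fun h => hp ⟨_, h, Equiv.apply_symm_apply _ _⟩
    change homo a l hl (φ.toEquiv ((homo a l hl).symm p)) = p
    rw [h1 _ h2, Equiv.apply_symm_apply]

theorem conjH_apply (φ : SympCt n) (a : R2 n) (l : ℝ) (hl : l ≠ 0) (p : R2 n) :
    (conjH φ a l hl).toEquiv p = a + l • φ.toEquiv (l⁻¹ • (p - a)) := rfl

/-- the parameters of the path -/
noncomputable def lp (l t : ℝ) : ℝ := 1 - ta t * (1 - l)

theorem lp_pos {l : ℝ} (hl : 0 < l) (t : ℝ) : 0 < lp l t := by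
  have h1 := (ta_mem t).1
  have h2 := (ta_mem t).2
  unfold lp
  rcases h1.eq_or_lt with h | h
  · rw [← h]
    norm_num
  · nlinarith

theorem lp_le {l : ℝ} (hl1 : l ≤ 1) (t : ℝ) : lp l t ≤ 1 := by
  have h1 := (ta_mem t).1
  unfold lp
  nlinarith

/-- the path from `φ` to its conjugate -/
noncomputable def dil (φ : SympCt n) (a : R2 n) (l : ℝ) (hl : 0 < l) (t : ℝ) : SympCt n :=
  conjH φ (ta t • a) (lp l t) (lp_pos hl t).ne'

theorem dil_zero (φ : SympCt n) (a : R2 n) (l : ℝ) (hl : 0 < l) : dil φ a l hl 0 = φ := by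
  refine SympCt.ext' fun p => ?_
  rw [dil, conjH_apply]
  have : lp l 0 = 1 := by unfold lp; rw [ta_zero]; ring
  rw [this, ta_zero]
  simp

theorem dil_one (φ : SympCt n) (a : R2 n) (l : ℝ) (hl : 0 < l) :
    dil φ a l hl 1 = conjH φ a l hl.ne' := by
  refine SympCt.ext' fun p => ?_
  rw [dil, conjH_apply, conjH_apply]
  have : lp l 1 = l := by unfold lp; rw [ta_one]; ring
  rw [this, ta_one, one_smul]

theorem dil_family (φ : SympCt n) (a : R2 n) (l : ℝ) (hl : 0 < l) :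
    ContDiff ℝ ∞ (fun z : ℝ × R2 n => (dil φ a l hl z.1).toEquiv z.2) := by
  have h1 : (fun z : ℝ × R2 n => (dil φ a l hl z.1).toEquiv z.2) =
      fun z => ta z.1 • a + lp l z.1 • φ.toEquiv ((lp l z.1)⁻¹ • (z.2 - ta z.1 • a)) := rfl
  rw [h1]
  have h2 : ContDiff ℝ ∞ (fun z : ℝ × R2 n => ta z.1) := ta_smooth.comp contDiff_fst
  have h3 : ContDiff ℝ ∞ (fun z : ℝ × R2 n => lp l z.1) :=
    contDiff_const.sub (h2.mul contDiff_const)
  have h4 : ContDiff ℝ ∞ (fun z : ℝ × R2 n => (lp l z.1)⁻¹) :=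
    h3.inv fun z => (lp_pos hl z.1).ne'
  have h5 : ContDiff ℝ ∞ (fun z : ℝ × R2 n => ta z.1 • a) := h2.smul contDiff_const
  exact h5.add (h3.smul (φ.smooth.comp (h4.smul (contDiff_snd.sub h5))))

theorem conjH_supp {φ : SympCt n} {r : ℝ} (hφ : φ ∈ supportedIn (Metric.closedBall (0 : R2 n) r))
    (a : R2 n) {l : ℝ} (hl : 0 < l) :
    conjH φ a l hl.ne' ∈ supportedIn (Metric.closedBall a (l * r)) := by
  intro p hp
  rw [conjH_apply]
  have h1 : l⁻¹ • (p - a) ∉ Metric.closedBall (0 : R2 n) r := by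
    rw [mem_closedBall_zero_iff, norm_smul, norm_inv, Real.norm_eq_abs, abs_of_pos hl, not_le,
      inv_mul_eq_div, lt_div_iff₀ hl]
    rw [mem_closedBall_iff_norm, not_le] at hp
    linarith
  rw [hφ _ h1, smul_smul, mul_inv_cancel₀ hl.ne', one_smul]
  abel

theorem supp_mono {K L : Set (R2 n)} (h : K ⊆ L) {φ : SympCt n} (hφ : φ ∈ supportedIn K) :
    φ ∈ supportedIn L := fun p hp => hφ p fun h1 => hp (h h1)

theorem dil_supp {φ : SympCt n} {r : ℝ} (hr : 0 ≤ r)
    (hφ : φ ∈ supportedIn (Metric.closedBall (0 : R2 n) r))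
    (a : R2 n) {l : ℝ} (hl : 0 < l) (hl1 : l ≤ 1) (t : ℝ) :
    dil φ a l hl t ∈ supportedIn (Metric.closedBall (0 : R2 n) (‖a‖ + r)) := by
  refine supp_mono ?_ (conjH_supp hφ (ta t • a) (lp_pos hl t))
  intro p hp
  rw [mem_closedBall_iff_norm] at hp
  rw [mem_closedBall_zero_iff]
  have h1 : ‖ta t • a‖ ≤ ‖a‖ := by
    rw [norm_smul, Real.norm_eq_abs, abs_of_nonneg (ta_mem t).1]
    exact mul_le_of_le_one_left (norm_nonneg _) (ta_mem t).2
  have h2 : lp l t * r ≤ r := mul_le_of_le_one_left hr (lp_le hl1 t)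
  have h3 : ‖p‖ ≤ ‖ta t • a‖ + ‖p - ta t • a‖ := by
    have := norm_add_le (ta t • a) (p - ta t • a)
    rwa [add_sub_cancel] at this
  linarith

theorem exists_ball (φ : SympCt n) :
    ∃ r : ℝ, 0 ≤ r ∧ φ ∈ supportedIn (Metric.closedBall (0 : R2 n) r) := by
  obtain ⟨K, hK, h1⟩ := φ.compact_support
  obtain ⟨r, hr⟩ := hK.isBounded.subset_closedBall (0 : R2 n)
  refine ⟨max r 0, le_max_right _ _, fun p hp => h1 p fun hpK => hp ?_⟩
  exact Metric.closedBall_subset_closedBall (le_max_left _ _) (hr hpK)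

/-- An element is isotopic to its conjugates by homotheties. -/
theorem joined_conjH (φ : SympCt n) (a : R2 n) {l : ℝ} (hl : 0 < l) (hl1 : l ≤ 1) :
    Joined φ (conjH φ a l hl.ne') := by
  obtain ⟨r, hr, h⟩ := exists_ball φ
  have h1 := joined_of_path _ (continuous_family (Metric.closedBall (0 : R2 n) (‖a‖ + r))
    (isCompact_closedBall _ _) (dil φ a l hl) (dil_family φ a l hl) (dil_supp hr h a hl hl1))
  rwa [dil_zero, dil_one] at h1

/-- Every isotopy class has elements with small support, near to the identity. -/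
theorem exists_small (φ : SympCt n) (U : Set (R2 n)) (hU : IsOpen U) (hne : U.Nonempty)
    (ε : ℝ) (hε : 0 < ε) : ∃ ψ : SympCt n, Joined φ ψ ∧ ψ ∈ supportedIn U ∧
      (∀ x, ‖ψ.toEquiv x - x‖ ≤ ε) ∧
      ∀ x, ∃ y, fderiv ℝ ψ.toEquiv x = fderiv ℝ φ.toEquiv y := by
  obtain ⟨a, ha⟩ := hne
  obtain ⟨r, hr, h⟩ := exists_ball φ
  obtain ⟨δ, hδ, hb⟩ := Metric.isOpen_iff.1 hU a ha
  obtain ⟨C, hC0, hC⟩ : ∃ C : ℝ, 0 ≤ C ∧ ∀ x, ‖φ.toEquiv x - x‖ ≤ C := by
    obtain ⟨C, hC⟩ := (isCompact_closedBall (0 : R2 n) r).bddAbove_image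
      (f := fun x => ‖φ.toEquiv x - x‖) (φ.smooth.continuous.sub continuous_id).norm.continuousOn
    refine ⟨max C 0, le_max_right _ _, fun x => ?_⟩
    by_cases hx : x ∈ Metric.closedBall (0 : R2 n) r
    · exact (hC ⟨x, hx, rfl⟩).trans (le_max_left _ _)
    · rw [h x hx, sub_self, norm_zero]
      exact le_max_right _ _
  obtain ⟨l, hl, hl1, hl2, hl3⟩ : ∃ l : ℝ, 0 < l ∧ l ≤ 1 ∧ l * r < δ ∧ l * C ≤ ε := by
    refine ⟨min 1 (min (δ / (r + 1) / 2) (ε / (C + 1))), ?_, min_le_left _ _, ?_, ?_⟩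
    · positivity
    · have h1 : min 1 (min (δ / (r + 1) / 2) (ε / (C + 1))) ≤ δ / (r + 1) / 2 :=
        (min_le_right _ _).trans (min_le_left _ _)
      have h2 : δ / (r + 1) / 2 * r < δ := by
        have h3 : δ / (r + 1) * r ≤ δ := by
          rw [div_mul_eq_mul_div, div_le_iff₀ (by positivity)]
          nlinarith
        nlinarith
      exact lt_of_le_of_lt (mul_le_mul_of_nonneg_right h1 hr) h2
    · have h1 : min 1 (min (δ / (r + 1) / 2) (ε / (C + 1))) ≤ ε / (C + 1) :=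
        (min_le_right _ _).trans (min_le_right _ _)
      have h2 : ε / (C + 1) * C ≤ ε := by
        rw [div_mul_eq_mul_div, div_le_iff₀ (by positivity)]
        nlinarith
      exact (mul_le_mul_of_nonneg_right h1 hC0).trans h2
  refine ⟨conjH φ a l hl.ne', joined_conjH φ a hl hl1, ?_, ?_, ?_⟩
  · refine supp_mono (fun p hp => hb ?_) (conjH_supp h a hl)
    rw [Metric.mem_ball]
    exact lt_of_le_of_lt (Metric.mem_closedBall.1 hp) hl2
  · intro x
    rw [conjH_apply]
    have e1 : a + l • φ.toEquiv (l⁻¹ • (x - a)) - x =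
        l • (φ.toEquiv (l⁻¹ • (x - a)) - l⁻¹ • (x - a)) := by
      have e2 : l • (l⁻¹ • (x - a)) = x - a := by
        rw [smul_smul, mul_inv_cancel₀ hl.ne', one_smul]
      rw [smul_sub l, e2]
      abel
    rw [e1, norm_smul, Real.norm_eq_abs, abs_of_pos hl]
    exact (mul_le_mul_of_nonneg_left (hC _) hl.le).trans hl3
  · intro x
    exact ⟨_, conj_fderiv φ a l hl.ne' x⟩

/-- The group of the isotopy classes is commutative. -/
theorem joined_comm (φ ψ : SympCt n) : Joined (comp φ ψ) (comp ψ φ) := by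
  rcases Nat.eq_zero_or_pos n with hn | hn
  · subst hn
    have : comp φ ψ = comp ψ φ := SympCt.ext' fun p => Subsingleton.elim _ _
    rw [this]
  obtain ⟨r, hr, hφ⟩ := exists_ball φ
  obtain ⟨r', hr', hψ⟩ := exists_ball ψ
  set ρ := max r r' with hρ
  have hρ0 : 0 ≤ ρ := hr.trans (le_max_left _ _)
  have hφ' : φ ∈ supportedIn (Metric.closedBall (0 : R2 n) ρ) :=
    supp_mono (Metric.closedBall_subset_closedBall (le_max_left _ _)) hφ
  have hψ' : ψ ∈ supportedIn (Metric.closedBall (0 : R2 n) ρ) :=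
    supp_mono (Metric.closedBall_subset_closedBall (le_max_right _ _)) hψ
  have : Nonempty (Fin n) := ⟨⟨0, hn⟩⟩
  obtain ⟨a, ha⟩ : ∃ a : R2 n, 2 * ρ < ‖a‖ := by
    obtain ⟨a, ha⟩ := NormedSpace.exists_lt_norm ℝ (R2 n) (2 * ρ)
    exact ⟨a, ha⟩
  set ψ' := conjH ψ a 1 one_pos.ne' with hψdef
  have hsup : ψ' ∈ supportedIn (Metric.closedBall a ρ) := by
    have := conjH_supp hψ' a one_pos
    rwa [one_mul] at this
  have hdisj : ∀ x, x ∈ Metric.closedBall (0 : R2 n) ρ → x ∉ Metric.closedBall a ρ := by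
    intro x hx hx'
    rw [mem_closedBall_zero_iff] at hx
    rw [mem_closedBall_iff_norm] at hx'
    have : ‖a‖ ≤ ‖x‖ + ‖x - a‖ := by
      have := norm_sub_le x (x - a)
      rwa [sub_sub_cancel] at this
    linarith
  have hmap : ∀ (θ : SympCt n) (K : Set (R2 n)), θ ∈ supportedIn K → ∀ x ∈ K,
      θ.toEquiv x ∈ K := by
    intro θ K hθ x hx
    by_contra h
    have h1 := hθ _ h
    have h2 := θ.toEquiv.injective h1
    rw [h2] at h
    exact h hx
  have hcomm : comp φ ψ' = comp ψ' φ := by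
    refine SympCt.ext' fun x => ?_
    change φ.toEquiv (ψ'.toEquiv x) = ψ'.toEquiv (φ.toEquiv x)
    by_cases hx : x ∈ Metric.closedBall (0 : R2 n) ρ
    · rw [hsup x (hdisj x hx), hsup _ (hdisj _ (hmap φ _ hφ' x hx))]
    · rw [hφ' x hx]
      by_cases hx' : x ∈ Metric.closedBall a ρ
      · have h1 := hmap ψ' _ hsup x hx'
        exact hφ' _ fun h => hdisj _ h h1
      · rw [hsup x hx', hφ' x hx]
  have hbig : Metric.closedBall (0 : R2 n) ρ ⊆ Metric.closedBall (0 : R2 n) (‖a‖ + ρ) :=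
    Metric.closedBall_subset_closedBall (by linarith [norm_nonneg a])
  have h1 := joined_of_path _ (continuous_comp_left (Metric.closedBall (0 : R2 n) (‖a‖ + ρ))
    (isCompact_closedBall _ _) (dil ψ a 1 one_pos) (dil_family ψ a 1 one_pos)
    (dil_supp hρ0 hψ' a one_pos le_rfl) φ (supp_mono hbig hφ'))
  have h2 := joined_of_path _ (continuous_comp_right (Metric.closedBall (0 : R2 n) (‖a‖ + ρ))
    (isCompact_closedBall _ _) (dil ψ a 1 one_pos) (dil_family ψ a 1 one_pos)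
    (dil_supp hρ0 hψ' a one_pos le_rfl) φ (supp_mono hbig hφ'))
  rw [dil_zero, dil_one] at h1 h2
  change Joined (comp φ ψ) (comp φ ψ') at h1
  change Joined (comp ψ φ) (comp ψ' φ) at h2
  rw [hcomm] at h1
  exact h1.trans h2.symm

end Pool.Agent.W71.EC
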