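import Mathlib
import Pool.Agent.W71.EC.Dil

set_option autoImplicit false

open scoped ContDiff Topology NNReal

namespace Pool.Agent.W71.EC

variable {n : ℕ}

/-- the differentials never map a nonzero vector to opposite directions -/
def NoOpp (φ ψ : SympCt n) : Prop :=
  ∀ x v, v ≠ 0 → ∀ c : ℝ, 0 < c →
    fderiv ℝ φ.toEquiv x v ≠ -(c • fderiv ℝ ψ.toEquiv x v)

theorem NoOpp.symm {φ ψ : SympCt n} (h : NoOpp φ ψ) : NoOpp ψ φ := by
  intro x v hv c hc h1
  refine h x v hv c⁻¹ (inv_pos.2 hc) ?_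
  rw [h1, smul_neg, neg_neg, smul_smul, inv_mul_cancel₀ hc.ne', one_smul]

theorem NoOpp.joined {φ ψ : SympCt n} (h : NoOpp φ ψ) : Joined ψ φ :=
  joined_of_not_opposite φ ψ fun x v hv c hc => h x v hv c (lt_of_lt_of_le one_pos hc)

/-- the neighbourhood of `ψ` -/
def Nb (ψ : SympCt n) : Set (SympCt n) :=
  {φ | ∀ x, ‖(dmap φ x - dmap ψ x) * dinv ψ x‖ < 1 / 2}

theorem self_mem_Nb (ψ : SympCt n) : ψ ∈ Nb ψ := by
  intro x
  rw [sub_self, zero_mul, norm_zero]
  norm_num

theorem noOpp_of_mem {φ ψ : SympCt n} (h : φ ∈ Nb ψ) : NoOpp φ ψ := by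
  intro x v hv c hc h1
  have h2 := h x
  have h3 : fderiv ℝ ψ.toEquiv.symm (ψ.toEquiv x) (fderiv ℝ ψ.toEquiv x v) = v := by
    have := inv_left (f := ψ.toEquiv.symm) ψ.smooth_symm ψ.smooth (ψ.toEquiv x)
    have h4 := inv_left (f := ψ.toEquiv.symm) ψ.smooth_symm ψ.smooth x v
    rwa [Equiv.symm_symm] at h4
  set w := fderiv ℝ ψ.toEquiv x v with hw
  have hw0 : w ≠ 0 := by
    intro h4
    rw [h4, map_zero] at h3
    exact hv h3.symm
  have h4 : ((dmap φ x - dmap ψ x) * dinv ψ x) w = fderiv ℝ φ.toEquiv x v - w := by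
    change fderiv ℝ φ.toEquiv x (fderiv ℝ ψ.toEquiv.symm (ψ.toEquiv x) w) -
      fderiv ℝ ψ.toEquiv x (fderiv ℝ ψ.toEquiv.symm (ψ.toEquiv x) w) = _
    rw [h3]
  have h5 := ((dmap φ x - dmap ψ x) * dinv ψ x).le_opNorm w
  rw [h4, h1] at h5
  have h6 : -(c • w) - w = -((c + 1) • w) := by module
  rw [h6, norm_neg, norm_smul, Real.norm_eq_abs, abs_of_pos (by linarith)] at h5
  have h7 : 0 < ‖w‖ := norm_pos_iff.2 hw0
  nlinarith

theorem dmap_eq (φ : SympCt n) : dmap φ =
    (⟨continuousMultilinearCurryFin1 ℝ (R2 n) (R2 n),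
      (continuousMultilinearCurryFin1 ℝ (R2 n) (R2 n)).continuous⟩ :
      C((R2 n) [×1]→L[ℝ] (R2 n), R2 n →L[ℝ] R2 n)).comp (deriv 1 φ) := by
  ext1 x
  refine ContinuousLinearMap.ext fun v => ?_
  change fderiv ℝ φ.toEquiv x v =
    continuousMultilinearCurryFin1 ℝ (R2 n) (R2 n) (iteratedFDeriv ℝ 1 φ.toEquiv x) v
  rw [continuousMultilinearCurryFin1_apply, iteratedFDeriv_one_apply]
  rfl

theorem isOpen_Nb (ψ : SympCt n) : IsOpen (Nb ψ) := by
  refine isOpen_iSup_iff.2 fun C => ?_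
  refine isOpen_coinduced.2 ?_
  obtain ⟨L, hL, hψ⟩ := ψ.compact_support
  let _ : TopologicalSpace (supportedIn (C : Set (R2 n))) := smoothTopology (C : Set (R2 n))
  have h1 : Continuous (fun φ : supportedIn (C : Set (R2 n)) => deriv 1 φ.1) :=
    continuous_iInf_dom (i := 1) continuous_induced_dom
  have h2 : Continuous (fun φ : supportedIn (C : Set (R2 n)) => dmap φ.1) := by
    have h3 : (fun φ : supportedIn (C : Set (R2 n)) => dmap φ.1) = fun φ =>
        (⟨continuousMultilinearCurryFin1 ℝ (R2 n) (R2 n),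
          (continuousMultilinearCurryFin1 ℝ (R2 n) (R2 n)).continuous⟩ :
          C((R2 n) [×1]→L[ℝ] (R2 n), R2 n →L[ℝ] R2 n)).comp (deriv 1 φ.1) := by
      funext φ
      exact dmap_eq φ.1
    rw [h3]
    exact (ContinuousMap.continuous_postcomp _).comp h1
  have hcont : Continuous (fun φ : supportedIn (C : Set (R2 n)) =>
      (dmap φ.1 - dmap ψ) * dinv ψ) := (h2.sub continuous_const).mul continuous_const
  have hK : IsCompact ((C : Set (R2 n)) ∪ L) := C.isCompact.union hL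
  have hopen : IsOpen {f : C(R2 n, R2 n →L[ℝ] R2 n) |
      Set.MapsTo f ((C : Set (R2 n)) ∪ L) (Metric.ball 0 (1 / 2))} :=
    ContinuousMap.isOpen_setOfPred_mapsTo hK Metric.isOpen_ball
  have h4 : (Subtype.val : supportedIn (C : Set (R2 n)) → SympCt n) ⁻¹' Nb ψ =
      (fun φ : supportedIn (C : Set (R2 n)) => (dmap φ.1 - dmap ψ) * dinv ψ) ⁻¹'
        {f : C(R2 n, R2 n →L[ℝ] R2 n) |
          Set.MapsTo f ((C : Set (R2 n)) ∪ L) (Metric.ball 0 (1 / 2))} := by
    ext φ
    simp only [Nb, Set.mem_preimage, Set.mem_ofPred_eq, Set.MapsTo, mem_ball_zero_iff]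
    constructor
    · intro h x _
      exact h x
    · intro h x
      by_cases hx : x ∈ (C : Set (R2 n)) ∪ L
      · exact h hx
      · have e1 : dmap φ.1 x = dmap ψ x := by
          change fderiv ℝ φ.1.toEquiv x = fderiv ℝ ψ.toEquiv x
          refine Filter.EventuallyEq.fderiv_eq ?_
          filter_upwards [hK.isClosed.isOpen_compl.mem_nhds hx] with y hy
          rw [φ.2 y fun h => hy (Or.inl h), hψ y fun h => hy (Or.inr h)]
        rw [e1, sub_self, zero_mul, norm_zero]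
        norm_num
  rw [h4]
  exact hopen.preimage hcont

/-- **Isotopy classes are the classes of chains.** -/
theorem joined_iff (φ ψ : SympCt n) : Joined φ ψ ↔ Relation.ReflTransGen NoOpp φ ψ := by
  constructor
  · rintro ⟨γ⟩
    let A : Set (SympCt n) := {χ | Relation.ReflTransGen NoOpp φ χ}
    have hA : IsOpen A := by
      rw [isOpen_iff_forall_mem_open]
      intro χ hχ
      refine ⟨Nb χ, fun θ hθ => ?_, isOpen_Nb χ, self_mem_Nb χ⟩
      exact hχ.tail (noOpp_of_mem hθ).symm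
    have hA' : IsOpen Aᶜ := by
      rw [isOpen_iff_forall_mem_open]
      intro χ hχ
      refine ⟨Nb χ, fun θ hθ hθA => hχ ?_, isOpen_Nb χ, self_mem_Nb χ⟩
      exact Relation.ReflTransGen.tail hθA (noOpp_of_mem hθ)
    have hclopen : IsClopen (γ ⁻¹' A) :=
      ⟨(isOpen_compl_iff.1 hA').preimage γ.continuous, hA.preimage γ.continuous⟩
    have hne : (γ ⁻¹' A).Nonempty := ⟨0, by
      change γ 0 ∈ A
      rw [γ.source]
      exact Relation.ReflTransGen.refl⟩
    have huniv := hclopen.eq_univ hne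
    have h1 : (1 : unitInterval) ∈ γ ⁻¹' A := by
      rw [huniv]
      trivial
    change γ 1 ∈ A at h1
    rwa [γ.target] at h1
  · intro h
    induction h with
    | refl => exact Joined.refl _
    | tail _ h1 ih => exact ih.trans h1.symm.joined

/-- the identity -/
noncomputable def one : SympCt n where
  toEquiv := Equiv.refl _
  smooth := contDiff_id
  smooth_symm := contDiff_id
  symplectic p u v := by
    change omega (fderiv ℝ id p u) (fderiv ℝ id p v) = _
    rw [fderiv_id]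
    rfl
  compact_support := ⟨∅, isCompact_empty, fun _ _ => rfl⟩

/-- no negative real eigenvalues -/
def NoNeg (θ : SympCt n) : Prop :=
  ∀ x v, v ≠ 0 → ∀ c : ℝ, 0 < c → fderiv ℝ θ.toEquiv x v ≠ -(c • v)

theorem comp_fderiv (θ ψ : SympCt n) (x v : R2 n) : fderiv ℝ (comp θ ψ).toEquiv x v =
    fderiv ℝ θ.toEquiv (ψ.toEquiv x) (fderiv ℝ ψ.toEquiv x v) := by
  have h3 := (hasFD θ (ψ.toEquiv x)).comp x (hasFD ψ x)
  have h4 : ((comp θ ψ).toEquiv : R2 n → R2 n) = θ.toEquiv ∘ ψ.toEquiv := rfl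
  rw [h4, h3.fderiv]
  rfl

theorem fderiv_ne_zero (ψ : SympCt n) (x : R2 n) {v : R2 n} (hv : v ≠ 0) :
    fderiv ℝ ψ.toEquiv x v ≠ 0 := by
  intro h
  have h4 := inv_left (f := ψ.toEquiv.symm) ψ.smooth_symm ψ.smooth x v
  rw [Equiv.symm_symm, h, map_zero] at h4
  exact hv h4.symm

theorem NoNeg.noOpp {θ : SympCt n} (h : NoNeg θ) (ψ : SympCt n) : NoOpp (comp θ ψ) ψ := by
  intro x v hv c hc
  rw [comp_fderiv]
  exact h _ _ (fderiv_ne_zero ψ x hv) c hc

theorem NoOpp.noNeg {φ ψ : SympCt n} (h : NoOpp φ ψ) : NoNeg (comp φ (inv ψ)) := by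
  intro y w hw c hc h1
  obtain ⟨x, rfl⟩ := ψ.toEquiv.surjective y
  rw [comp_fderiv] at h1
  have e5 := inv_left ψ.smooth ψ.smooth_symm (ψ.toEquiv x) w
  change fderiv ℝ φ.toEquiv (ψ.toEquiv.symm (ψ.toEquiv x))
    (fderiv ℝ ψ.toEquiv.symm (ψ.toEquiv x) w) = _ at h1
  rw [Equiv.symm_apply_apply] at e5 h1
  refine h x (fderiv ℝ ψ.toEquiv.symm (ψ.toEquiv x) w) ?_ c hc ?_
  · intro h2
    rw [h2, map_zero] at e5
    exact hw e5.symm
  · rw [e5]
    exact h1

/-- **Isotopy to the identity** -/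
theorem joined_one_iff (φ : SympCt n) : Joined one φ ↔
    ∃ l : List (SympCt n), (∀ θ ∈ l, NoNeg θ) ∧ φ = l.foldr comp one := by
  constructor
  · intro h
    have h1 := (joined_iff one φ).1 h
    induction h1 with
    | refl => exact ⟨[], by simp, rfl⟩
    | tail hab hbc ih =>
      rename_i b c
      obtain ⟨l, hl, hb⟩ := ih ((joined_iff one b).2 hab)
      refine ⟨comp c (inv b) :: l, ?_, ?_⟩
      · intro θ hθ
        rcases List.mem_cons.1 hθ with rfl | hθ
        · exact hbc.symm.noNeg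
        · exact hl θ hθ
      · rw [List.foldr_cons, ← hb, comp_inv_comp]
  · rintro ⟨l, hl, rfl⟩
    induction l with
    | nil => exact Joined.refl _
    | cons θ l ih =>
      rw [List.foldr_cons]
      exact (ih fun χ hχ => hl χ (List.mem_cons_of_mem _ hχ)).trans
        ((hl θ List.mem_cons_self).noOpp _).joined

theorem one_fderiv (x v : R2 n) : fderiv ℝ (one : SympCt n).toEquiv x v = v := by
  change fderiv ℝ id x v = v
  rw [fderiv_id]
  rfl

theorem one_supp (K : Set (R2 n)) : (one : SympCt n) ∈ supportedIn K := fun _ _ => rfl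

end Pool.Agent.W71.EC
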