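import Mathlib
import Pool.Agent.W71.EC.Chain

set_option autoImplicit false

open scoped ContDiff Topology NNReal

namespace Pool.Agent.W71.EC

variable {n : ℕ}

theorem eq_one {ι : SympCt n} (h : ∀ x, ι.toEquiv x = x) : ι = one := SympCt.ext' h

theorem foldr_apply (l : List (SympCt n)) (x : R2 n) :
    (l.foldr comp one).toEquiv x = l.foldr (fun θ y => θ.toEquiv y) x := by
  induction l with
  | nil => rfl
  | cons θ l ih =>
    rw [List.foldr_cons, List.foldr_cons, ← ih]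
    rfl

theorem joined_S (φ ψ : SympCt n) (S : R2 n →L[ℝ] R2 n)
    (hS : ∀ u v, omega (S u) v + omega u (S v) = 0)
    (hc : ∀ x, ∀ s ∈ Set.Icc (0 : ℝ) 1, ∀ v, v ≠ 0 →
      fderiv ℝ ψ.toEquiv x v + (s / 2) • ((fderiv ℝ φ.toEquiv x v - fderiv ℝ ψ.toEquiv x v) +
        S (fderiv ℝ φ.toEquiv x v - fderiv ℝ ψ.toEquiv x v)) ≠ 0) : Joined ψ φ := by
  refine joined_rel φ ψ S hS fun x s hs v hv h => hc x s hs v hv ?_
  rw [RR_apply, smul_smul] at h
  rwa [show s / 2 = s * (1 / 2) by ring]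

/-- the involution -/
noncomputable def S1 (n : ℕ) : R2 n →L[ℝ] R2 n :=
  (ContinuousLinearMap.fst ℝ (Fin n → ℝ) (Fin n → ℝ)).prod
    (-(ContinuousLinearMap.snd ℝ (Fin n → ℝ) (Fin n → ℝ)))

theorem S1_apply (v : R2 n) : S1 n v = (v.1, -v.2) := rfl

theorem S1_sp (u v : R2 n) : omega (S1 n u) v + omega u (S1 n v) = 0 := by
  rw [S1_apply, S1_apply]
  unfold omega
  rw [← Finset.sum_add_distrib]
  refine Finset.sum_eq_zero fun i _ => ?_
  simp only [Pi.neg_apply]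
  ring

/-- the criterion with a diagonal block -/
theorem joined_block (φ : SympCt n)
    (hc : ∀ x, ∀ u : Fin n → ℝ, u ≠ 0 → ∀ c : ℝ, 0 ≤ c →
      (fderiv ℝ φ.toEquiv x (u, 0)).1 ≠ -(c • u)) : Joined one φ := by
  refine joined_S φ one (S1 n) S1_sp fun x s hs v hv h => ?_
  rw [one_fderiv, S1_apply] at h
  have h1 := congrArg Prod.fst h
  have h2 := congrArg Prod.snd h
  simp only [Prod.fst_add, Prod.smul_fst, Prod.snd_add, Prod.smul_snd, add_neg_cancel, smul_zero,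
    add_zero, Prod.fst_zero, Prod.snd_zero] at h1 h2
  have hv' : v = (v.1, 0) := Prod.ext rfl h2
  have hv1 : v.1 ≠ 0 := fun h3 => hv (by rw [hv', h3]; rfl)
  rcases hs.1.eq_or_lt with h0 | h0
  · rw [← h0] at h1
    apply hv1
    simpa using h1
  · refine hc x v.1 hv1 ((1 - s) / s) (div_nonneg (by linarith [hs.2]) h0.le) ?_
    rw [← hv']
    have h3 : v.1 + (s / 2) • (((fderiv ℝ φ.toEquiv x v).1 - v.1) +
        ((fderiv ℝ φ.toEquiv x v).1 - v.1)) =
        (1 - s) • v.1 + s • (fderiv ℝ φ.toEquiv x v).1 := by module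
    have h4 : (1 - s) • v.1 + s • (fderiv ℝ φ.toEquiv x v).1 = 0 := by
      rw [← h3]
      exact h1
    have h5 : s • (fderiv ℝ φ.toEquiv x v).1 = -((1 - s) • v.1) := eq_neg_of_add_eq_zero_right h4
    have h6 : (fderiv ℝ φ.toEquiv x v).1 = s⁻¹ • (s • (fderiv ℝ φ.toEquiv x v).1) := by
      rw [smul_smul, inv_mul_cancel₀ h0.ne', one_smul]
    rw [h6, h5, smul_neg, smul_smul, div_eq_inv_mul]

theorem path_connected_iff : (∀ φ ψ : SympCt n, Joined φ ψ) ↔
    ∀ φ : SympCt n, ∃ l : List (SympCt n), (∀ θ ∈ l, NoNeg θ) ∧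
      ∀ x, φ.toEquiv x = l.foldr (fun θ y => θ.toEquiv y) x := by
  constructor
  · intro h φ
    obtain ⟨l, hl, hφ⟩ := (joined_one_iff φ).1 (h one φ)
    refine ⟨l, hl, fun x => ?_⟩
    rw [hφ, foldr_apply]
  · intro h
    have h1 : ∀ φ : SympCt n, Joined one φ := by
      intro φ
      obtain ⟨l, hl, hφ⟩ := h φ
      refine (joined_one_iff φ).2 ⟨l, hl, SympCt.ext' fun x => ?_⟩
      rw [hφ, foldr_apply]
    exact fun φ ψ => (h1 φ).symm.trans (h1 ψ)

theorem joined_comm' (φ ψ α β : SympCt n) (hα : ∀ x, α.toEquiv x = φ.toEquiv (ψ.toEquiv x))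
    (hβ : ∀ x, β.toEquiv x = ψ.toEquiv (φ.toEquiv x)) : Joined α β := by
  have h1 : α = comp φ ψ := SympCt.ext' hα
  have h2 : β = comp ψ φ := SympCt.ext' hβ
  rw [h1, h2]
  exact joined_comm φ ψ

end Pool.Agent.W71.EC
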